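import Pool.Agent.Run7.h728.DZ.Ends

/-!
# Relations supported at the two ends
-/

set_option autoImplicit false

namespace Pool.Agent.Run7.h728.DZ

open Finset Filter Topology
open Pool.Agent.Y760.ZG (hr hr_nil hr_cons)
open Pool.Agent.R404.MZ (zt few_zeros box_zeros)

lemma zv_eq_tsum (w : ℕ) : zv w = ∑' m : ℕ, 1 / ((m + 1 : ℕ) : ℝ) ^ w := rfl

/-- the product of two zeta values -/
lemma stuffle {p q : ℕ} (hp : 2 ≤ p) (hq : 2 ≤ q) :
    dz p q = zv p * zv q - dz q p - zv (p + q) := by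
  have h1 : HasSum (fun b : ℕ × ℕ => 1 / ((b.1 + 1 : ℕ) : ℝ) ^ p * (1 / ((b.2 + 1 : ℕ) : ℝ) ^ q))
      (zv p * zv q) := by
    have hs1 := (zv_hasSum hp).summable
    have hs2 := (zv_hasSum hq).summable
    have h2 : Summable (fun b : ℕ × ℕ =>
        1 / ((b.1 + 1 : ℕ) : ℝ) ^ p * (1 / ((b.2 + 1 : ℕ) : ℝ) ^ q)) :=
      hs1.mul_of_nonneg hs2 (fun _ => by positivity) (fun _ => by positivity)
    exact (zv_hasSum hp).mul (zv_hasSum hq) h2
  have h2 : HasSum (tm p q) (dz p q) := tm_hasSum (Or.inl ⟨hp, hq⟩)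
  have h4 : HasSum (tm q p) (dz q p) := tm_hasSum (Or.inl ⟨hq, hp⟩)
  have h3 : HasSum (tm q p ∘ (Equiv.prodComm ℕ ℕ)) (dz q p) :=
    (Equiv.prodComm ℕ ℕ).hasSum_iff.2 h4
  have h5 : HasSum (fun b : ℕ × ℕ => if b.1 = b.2 then 1 / ((b.1 + 1 : ℕ) : ℝ) ^ (p + q) else 0)
      (zv (p + q)) := by
    have hinj : Function.Injective (fun n : ℕ => (n, n)) := fun m n h => (Prod.mk.inj h).1
    refine (hinj.hasSum_iff ?_).1 ?_
    · intro b hb
      rw [if_neg]
      intro h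
      apply hb
      exact ⟨b.1, Prod.ext rfl h⟩
    · have h6 := zv_hasSum (w := p + q) (by omega)
      refine h6.congr_fun fun n => ?_
      simp
  have h7 := (h2.add h3).add h5
  have h8 : ∀ b : ℕ × ℕ, 1 / ((b.1 + 1 : ℕ) : ℝ) ^ p * (1 / ((b.2 + 1 : ℕ) : ℝ) ^ q) =
      tm p q b + (tm q p ∘ (Equiv.prodComm ℕ ℕ)) b +
      if b.1 = b.2 then 1 / ((b.1 + 1 : ℕ) : ℝ) ^ (p + q) else 0 := by
    intro b
    obtain ⟨m, n⟩ := b
    rw [Function.comp_apply, Equiv.prodComm_apply]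
    unfold tm
    simp only [Prod.swap]
    rcases lt_trichotomy m n with h | h | h
    · rw [if_neg (by omega), if_pos h, if_neg (by omega)]
      rw [one_div_mul_one_div]
      ring
    · subst h
      rw [if_neg (lt_irrefl _), if_neg (lt_irrefl _), if_pos rfl, pow_add, one_div_mul_one_div]
      ring
    · rw [if_pos h, if_neg (by omega), if_neg (by omega), one_div_mul_one_div]
      ring
  have h9 := h7.unique (h1.congr_fun fun b => (h8 b).symm)
  linarith

lemma zt_nil {k p : ℕ} (h : p ≤ k) : zt ((k : ℝ) + ((-(p : ℤ) : ℤ) : ℝ)) [] = zv (k - p) := by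
  unfold zt zv
  refine tsum_congr fun n => ?_
  rw [hr_nil, ← Real.rpow_natCast, Nat.cast_sub h]
  push_cast
  rfl

lemma zt_one {k s : ℕ} (h : s ≤ k) : zt ((k : ℝ) + ((-(s : ℤ) : ℤ) : ℝ)) [s] = dz (k - s) s := by
  unfold zt dz
  refine tsum_congr fun n => ?_
  rw [hr_one', ← Real.rpow_natCast, Nat.cast_sub h, hs]
  push_cast
  rfl

/-- the positions, the lists and the coefficients -/
def ia (P Q : Finset ℕ) : {p // p ∈ P} ⊕ ({s // s ∈ P ∪ Q} ⊕ Unit) → ℤ :=
  Sum.elim (fun p => -((p : ℕ) : ℤ)) (Sum.elim (fun s => -((s : ℕ) : ℤ)) (fun _ => 0))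

def ik (P Q : Finset ℕ) : {p // p ∈ P} ⊕ ({s // s ∈ P ∪ Q} ⊕ Unit) → List ℕ :=
  Sum.elim (fun _ => []) (Sum.elim (fun s => [(s : ℕ)]) (fun _ => []))

noncomputable def ic (P Q : Finset ℕ) (c d : ℕ → ℝ) (e : ℝ) :
    {p // p ∈ P} ⊕ ({s // s ∈ P ∪ Q} ⊕ Unit) → ℝ :=
  Sum.elim (fun p => c p * zv p) (Sum.elim
    (fun s => (if (s : ℕ) ∈ Q then d s else 0) - (if (s : ℕ) ∈ P then c s else 0))
    (fun _ => e - ∑ p ∈ P, c p))

lemma ia_inj (P Q : Finset ℕ) (hP : ∀ p ∈ P, 2 ≤ p) :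
    Function.Injective fun j => (ia P Q j, ik P Q j) := by
  rintro (i | i | i) (j | j | j) hij <;>
    simp only [ia, ik, Sum.elim_inl, Sum.elim_inr, Prod.mk.injEq] at hij
  · congr 1
    apply Subtype.ext
    have := hij.1
    omega
  · exact absurd hij.2 (by simp)
  · have := hij.1
    have := hP i i.2
    omega
  · exact absurd hij.2 (by simp)
  · congr 2
    apply Subtype.ext
    have := hij.1
    omega
  · exact absurd hij.2 (by simp)
  · have := hij.1
    have := hP j j.2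
    omega
  · exact absurd hij.2 (by simp)
  · rfl

lemma ic_ne (P Q : Finset ℕ) (hP : ∀ p ∈ P, 2 ≤ p) (c d : ℕ → ℝ) (e : ℝ)
    (hne : (∃ p ∈ P, c p ≠ 0) ∨ (∃ q ∈ Q, d q ≠ 0) ∨ e ≠ 0) : ic P Q c d e ≠ 0 := by
  intro h0
  have h1 : ∀ p ∈ P, c p = 0 := by
    intro p hp
    have h2 := congrFun h0 (Sum.inl ⟨p, hp⟩)
    simp only [ic, Sum.elim_inl, Pi.zero_apply] at h2
    rcases mul_eq_zero.1 h2 with h3 | h3
    · exact h3
    · exact absurd h3 (zv_pos (hP p hp)).ne'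
  have h2 : ∀ q ∈ Q, d q = 0 := by
    intro q hq
    have h3 := congrFun h0 (Sum.inr (Sum.inl ⟨q, Finset.mem_union_right _ hq⟩))
    simp only [ic, Sum.elim_inl, Sum.elim_inr, Pi.zero_apply] at h3
    rw [if_pos hq] at h3
    split_ifs at h3 with h4
    · rw [h1 q h4] at h3
      linarith
    · linarith
  have h3 : e = 0 := by
    have h4 := congrFun h0 (Sum.inr (Sum.inr ()))
    simp only [ic, Sum.elim_inr, Pi.zero_apply] at h4
    rw [Finset.sum_eq_zero h1] at h4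
    linarith
  rcases hne with ⟨p, hp, h⟩ | ⟨q, hq, h⟩ | h
  · exact h (h1 p hp)
  · exact h (h2 q hq)
  · exact h h3

lemma ic_sum (P Q : Finset ℕ) (hP : ∀ p ∈ P, 2 ≤ p) (c d : ℕ → ℝ) (e : ℝ) (k : ℕ)
    (hkP : ∀ p ∈ P, p + 2 ≤ k) (hkQ : ∀ q ∈ Q, q + 2 ≤ k) :
    ∑ j, ic P Q c d e j * zt ((k : ℝ) + (ia P Q j : ℝ)) (ik P Q j) =
      ∑ p ∈ P, c p * dz p (k - p) + ∑ q ∈ Q, d q * dz (k - q) q + e * zv k := by
  classical
  rw [Fintype.sum_sum_type, Fintype.sum_sum_type]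
  simp only [ic, ia, ik, Sum.elim_inl, Sum.elim_inr, Finset.univ_unique, Finset.sum_singleton]
  have e1 : ∑ p : {p // p ∈ P}, c p * zv p * zt ((k : ℝ) + ((-((p : ℕ) : ℤ) : ℤ) : ℝ)) [] =
      ∑ p ∈ P, c p * zv p * zv (k - p) := by
    rw [← Finset.sum_coe_sort P]
    refine Finset.sum_congr rfl fun p _ => ?_
    have := hkP p p.2
    rw [zt_nil (by omega)]
  have e2 : ∑ s : {s // s ∈ P ∪ Q}, ((if (s : ℕ) ∈ Q then d s else 0) -
      (if (s : ℕ) ∈ P then c s else 0)) * zt ((k : ℝ) + ((-((s : ℕ) : ℤ) : ℤ) : ℝ)) [(s : ℕ)] =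
      ∑ q ∈ Q, d q * dz (k - q) q - ∑ p ∈ P, c p * dz (k - p) p := by
    have e3 : ∑ q ∈ Q, d q * dz (k - q) q =
        ∑ s ∈ P ∪ Q, (if s ∈ Q then d s else 0) * dz (k - s) s := by
      rw [← Finset.sum_subset (Finset.subset_union_right (s₁ := P) (s₂ := Q))]
      · exact Finset.sum_congr rfl fun q hq => by rw [if_pos hq]
      · intro s _ hs
        rw [if_neg hs, zero_mul]
    have e4 : ∑ p ∈ P, c p * dz (k - p) p =
        ∑ s ∈ P ∪ Q, (if s ∈ P then c s else 0) * dz (k - s) s := by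
      rw [← Finset.sum_subset (Finset.subset_union_left (s₁ := P) (s₂ := Q))]
      · exact Finset.sum_congr rfl fun q hq => by rw [if_pos hq]
      · intro s _ hs
        rw [if_neg hs, zero_mul]
    rw [e3, e4, ← Finset.sum_sub_distrib, ← Finset.sum_coe_sort (P ∪ Q)]
    refine Finset.sum_congr rfl fun s _ => ?_
    have : (s : ℕ) + 2 ≤ k := by
      rcases Finset.mem_union.1 s.2 with h | h
      · exact hkP s h
      · exact hkQ s h
    rw [zt_one (by omega), sub_mul]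
  have e5 : zt ((k : ℝ) + ((0 : ℤ) : ℝ)) [] = zv k := by
    have := zt_nil (Nat.zero_le k)
    simpa using this
  rw [e1, e2, e5]
  have e6 : ∑ p ∈ P, c p * dz p (k - p) = ∑ p ∈ P, c p * zv p * zv (k - p) -
      ∑ p ∈ P, c p * dz (k - p) p - (∑ p ∈ P, c p) * zv k := by
    rw [Finset.sum_mul, ← Finset.sum_sub_distrib, ← Finset.sum_sub_distrib]
    refine Finset.sum_congr rfl fun p hp => ?_
    have h1 := hkP p hp
    rw [stuffle (hP p hp) (by omega : 2 ≤ k - p), show p + (k - p) = k by omega]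
    ring
  rw [e6]
  ring

lemma encard_le_of {X : Set ℕ} {R : ℕ} (h : ∀ T : Finset ℕ, ↑T ⊆ X → T.card ≤ R) :
    X.encard ≤ (R : ℕ∞) := by
  by_contra hcon
  rw [not_le] at hcon
  have h1 : ((R + 1 : ℕ) : ℕ∞) ≤ X.encard := by
    have := Order.add_one_le_of_lt hcon
    exact_mod_cast this
  obtain ⟨t, ht, h2⟩ := Set.exists_subset_encard_eq h1
  have hfin : t.Finite := Set.finite_of_encard_eq_coe h2
  rw [hfin.encard_eq_coe_toFinset_card] at h2
  have h4 : hfin.toFinset.card = R + 1 := by exact_mod_cast h2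
  have h5 := h hfin.toFinset (by simpa using ht)
  omega

/-- the weights of the relations supported at the two ends, uniformly in the positions -/
theorem both_few (N : ℕ) : ∃ R : ℕ, ∀ (P Q : Finset ℕ) (c d : ℕ → ℝ) (e : ℝ),
    P.card + Q.card ≤ N → (∀ p ∈ P, 2 ≤ p) → (∀ q ∈ Q, 1 ≤ q) →
    ((∃ p ∈ P, c p ≠ 0) ∨ (∃ q ∈ Q, d q ≠ 0) ∨ e ≠ 0) →
    {k : ℕ | 2 ≤ k ∧ (∀ p ∈ P, p + 2 ≤ k) ∧ (∀ q ∈ Q, q + 2 ≤ k) ∧
      ∑ p ∈ P, c p * dz p (k - p) + ∑ q ∈ Q, d q * dz (k - q) q + e * zv k = 0}.encard ≤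
        (R : ℕ∞) := by
  classical
  obtain ⟨R, hR⟩ := few_zeros (N + N + 1) 1
  refine ⟨R, fun P Q c d e hN hP hQ hne => encard_le_of fun T hT => ?_⟩
  have h1 := hR ({p // p ∈ P} ⊕ ({s // s ∈ P ∪ Q} ⊕ Unit)) (by
    rw [Fintype.card_sum, Fintype.card_sum, Fintype.card_coe, Fintype.card_coe,
      Fintype.card_unit]
    have := Finset.card_union_le P Q
    omega) (ia P Q) (ik P Q) (ic P Q c d e) (by
    rintro (j | j | j)
    · simp [ik]
    · have h2 : 1 ≤ (j : ℕ) := by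
        rcases Finset.mem_union.1 j.2 with h | h
        · have := hP j h
          omega
        · exact hQ j h
      refine ⟨by simp [ik], ?_⟩
      intro x hx
      simp only [ik, Sum.elim_inr, Sum.elim_inl, List.mem_singleton] at hx
      omega
    · simp [ik]) (ia_inj P Q hP) (ic_ne P Q hP c d e hne) (T.image (fun k : ℕ => (k : ℝ))) (by
    intro s hs
    obtain ⟨k, hk, rfl⟩ := Finset.mem_image.1 hs
    obtain ⟨hk2, hkP, hkQ, hk0⟩ := hT hk
    refine ⟨?_, ?_⟩
    · rintro (j | j | j)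
      · have h3 := hkP j j.2
        have h4 : ((j : ℕ) : ℝ) + 2 ≤ k := by exact_mod_cast h3
        simp only [ia, Sum.elim_inl]
        push_cast
        linarith
      · have h3 : (j : ℕ) + 2 ≤ k := by
          rcases Finset.mem_union.1 j.2 with h | h
          · exact hkP j h
          · exact hkQ j h
        have h4 : ((j : ℕ) : ℝ) + 2 ≤ k := by exact_mod_cast h3
        simp only [ia, Sum.elim_inl, Sum.elim_inr]
        push_cast
        linarith
      · have h4 : (2 : ℝ) ≤ k := by exact_mod_cast hk2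
        simp only [ia, Sum.elim_inr]
        push_cast
        linarith
    · rw [ic_sum P Q hP c d e k hkP hkQ]
      exact hk0)
  rwa [Finset.card_image_of_injective _ Nat.cast_injective] at h1

/-- the weights of the relations supported at the two ends, explicitly -/
theorem both_box (J : ℕ) (P Q : Finset ℕ) (c d : ℕ → ℝ) (e : ℝ)
    (hP : ∀ p ∈ P, 2 ≤ p ∧ p ≤ J) (hQ : ∀ q ∈ Q, 1 ≤ q ∧ q ≤ J)
    (hne : (∃ p ∈ P, c p ≠ 0) ∨ (∃ q ∈ Q, d q ≠ 0) ∨ e ≠ 0) :
    {k : ℕ | J + 2 ≤ k ∧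
      ∑ p ∈ P, c p * dz p (k - p) + ∑ q ∈ Q, d q * dz (k - q) q + e * zv k = 0}.encard ≤
        (((J + 1) * (J + 2) - 1 : ℕ) : ℕ∞) := by
  classical
  refine encard_le_of fun T hT => ?_
  have hP2 : ∀ p ∈ P, 2 ≤ p := fun p hp => (hP p hp).1
  have hPQ : ∀ s ∈ P ∪ Q, 1 ≤ s ∧ s ≤ J := by
    intro s hs
    rcases Finset.mem_union.1 hs with h | h
    · have := hP s h
      omega
    · exact hQ s h
  have h1 := box_zeros J 1 J (ia P Q) (ik P Q) (ic P Q c d e) (by
    rintro (j | j | j)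
    · simp [ik]
    · have h2 := hPQ j j.2
      refine ⟨by simp [ik], ?_⟩
      intro x hx
      simp only [ik, Sum.elim_inr, Sum.elim_inl, List.mem_singleton] at hx
      omega
    · simp [ik]) (by
    have hb : ∀ j, -(J : ℤ) ≤ ia P Q j ∧ ia P Q j ≤ 0 := by
      rintro (j | j | j)
      · have := hP j j.2
        simp only [ia, Sum.elim_inl]
        omega
      · have := hPQ j j.2
        simp only [ia, Sum.elim_inl, Sum.elim_inr]
        omega
      · simp only [ia, Sum.elim_inr]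
        omega
    intro i j
    have := hb i
    have := hb j
    omega) (ia_inj P Q hP2) (ic_ne P Q hP2 c d e hne) (T.image (fun k : ℕ => (k : ℝ))) (by
    intro s hs
    obtain ⟨k, hk, rfl⟩ := Finset.mem_image.1 hs
    obtain ⟨hk2, hk0⟩ := hT hk
    refine ⟨?_, ?_⟩
    · rintro (j | j | j)
      · have h3 := hP j j.2
        have h4 : ((j : ℕ) : ℝ) + 2 ≤ k := by exact_mod_cast (by omega : (j : ℕ) + 2 ≤ k)
        simp only [ia, Sum.elim_inl]
        push_cast
        linarith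
      · have h3 := hPQ j j.2
        have h4 : ((j : ℕ) : ℝ) + 2 ≤ k := by exact_mod_cast (by omega : (j : ℕ) + 2 ≤ k)
        simp only [ia, Sum.elim_inl, Sum.elim_inr]
        push_cast
        linarith
      · have h4 : (2 : ℝ) ≤ k := by exact_mod_cast (by omega : 2 ≤ k)
        simp only [ia, Sum.elim_inr]
        push_cast
        linarith
    · rw [ic_sum P Q hP2 c d e k (fun p hp => by have := hP p hp; omega)
        (fun q hq => by have := hQ q hq; omega)]
      exact hk0)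
  rw [pow_one] at h1
  rwa [Finset.card_image_of_injective _ Nat.cast_injective] at h1

end Pool.Agent.Run7.h728.DZ
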