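import Pool.Agent.Run7.h728.DZ.Indep

/-!
# Sums of real powers vary slowly
-/

set_option autoImplicit false

namespace Pool.Agent.Run7.h728.DZ

open Finset Filter Topology

/-- the finite sums `∑ c_α x ^ α` of real powers -/
noncomputable def Pw : Submodule ℝ (ℕ → ℝ) :=
  Submodule.span ℝ (Set.range fun α : ℝ => fun x : ℕ => (x : ℝ) ^ α)

lemma pow_exp (β ρ : ℝ) (h0 : 0 < ρ) (h1 : ρ < 1) :
    Tendsto (fun x : ℕ => (x : ℝ) ^ β * ρ ^ x) atTop (𝓝 0) := by
  have hl : 0 < -Real.log ρ := by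
    have := Real.log_neg h0 h1
    linarith
  have h2 := (tendsto_rpow_mul_exp_neg_mul_atTop_nhds_zero β (-Real.log ρ) hl).comp
    (tendsto_natCast_atTop_atTop (R := ℝ))
  refine h2.congr fun x => ?_
  show (x : ℝ) ^ β * Real.exp (- -Real.log ρ * (x : ℝ)) = _
  rw [neg_neg, mul_comm (Real.log ρ), Real.exp_nat_mul, Real.exp_log h0]

theorem slow_Pw : Slow Pw := by
  classical
  intro g hg hne ρ hρ0 hρ1
  obtain ⟨c, hc⟩ := (Finsupp.mem_span_range_iff_exists_finsupp).1 hg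
  have hc0 : c.support.Nonempty := by
    rw [Finsupp.support_nonempty_iff]
    intro h
    apply hne
    rw [← hc, h, Finsupp.sum_zero_index]
  set α0 : ℝ := c.support.max' hc0 with hα0
  have hmem : α0 ∈ c.support := c.support.max'_mem hc0
  have hmax : ∀ α ∈ c.support, α ≤ α0 := fun α h => c.support.le_max' α h
  have hcα : c α0 ≠ 0 := Finsupp.mem_support_iff.1 hmem
  have hgx : ∀ x : ℕ, g x = ∑ α ∈ c.support, c α * (x : ℝ) ^ α := by
    intro x
    rw [← hc, Finsupp.sum, Finset.sum_apply]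
    rfl
  set b : ℕ → ℝ := fun x => ∑ α ∈ c.support, c α * (x : ℝ) ^ (α - α0) with hb
  have hgb : ∀ x : ℕ, 1 ≤ x → g x = (x : ℝ) ^ α0 * b x := by
    intro x hx
    have hx0 : (0 : ℝ) < x := by exact_mod_cast hx
    rw [hgx, hb, Finset.mul_sum]
    refine Finset.sum_congr rfl fun α _ => ?_
    rw [Real.rpow_sub hx0]
    have : (x : ℝ) ^ α0 ≠ 0 := (Real.rpow_pos_of_pos hx0 _).ne'
    field_simp
  have hblim : Tendsto b atTop (𝓝 (c α0)) := by
    have h1 : Tendsto (fun x : ℕ => ∑ α ∈ c.support, c α * (x : ℝ) ^ (α - α0)) atTop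
        (𝓝 (∑ α ∈ c.support, if α = α0 then c α0 else 0)) := by
      refine tendsto_finsetSum _ fun α hα => ?_
      split_ifs with h
      · subst h
        refine Tendsto.congr (fun x => ?_) tendsto_const_nhds
        rw [sub_self, Real.rpow_zero, mul_one]
      · have h2 : α < α0 := lt_of_le_of_ne (hmax α hα) h
        have h3 := (tendsto_rpow_neg_atTop (y := α0 - α) (by linarith)).comp
          (tendsto_natCast_atTop_atTop (R := ℝ))
        have h4 := h3.const_mul (c α)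
        rw [mul_zero] at h4
        refine h4.congr fun x => ?_
        show c α * (x : ℝ) ^ (-(α0 - α)) = _
        rw [neg_sub]
    rw [Finset.sum_ite_eq' c.support α0] at h1
    rwa [if_pos hmem] at h1
  have habs : Tendsto (fun x => |b x|) atTop (𝓝 |c α0|) := hblim.abs
  have hpos : 0 < |c α0| := abs_pos.2 hcα
  have h1 := habs.eventually (lt_mem_nhds (half_lt_self hpos))
  have h2 := habs.eventually (gt_mem_nhds (show |c α0| < 2 * |c α0| by linarith))
  have h3 := (pow_exp (-α0) ρ hρ0 hρ1).eventually (gt_mem_nhds (half_pos hpos))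
  have h4 := (pow_exp α0 ρ hρ0 hρ1).eventually
    (gt_mem_nhds (show (0 : ℝ) < 1 / (2 * |c α0|) by positivity))
  filter_upwards [h1, h2, h3, h4, eventually_ge_atTop 1] with x e1 e2 e3 e4 e5
  have hx0 : (0 : ℝ) < x := by exact_mod_cast e5
  have hxα : 0 < (x : ℝ) ^ α0 := Real.rpow_pos_of_pos hx0 _
  have hρx : 0 < ρ ^ x := pow_pos hρ0 x
  rw [hgb x e5, abs_mul, abs_of_pos hxα]
  constructor
  · rw [Real.rpow_neg hx0.le] at e3
    have e6 : ρ ^ x < |c α0| / 2 * (x : ℝ) ^ α0 := by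
      rwa [inv_mul_lt_iff₀ hxα, mul_comm] at e3
    have e7 : |c α0| / 2 * (x : ℝ) ^ α0 ≤ |b x| * (x : ℝ) ^ α0 :=
      mul_le_mul_of_nonneg_right e1.le hxα.le
    linarith [mul_comm (|b x|) ((x : ℝ) ^ α0)]
  · rw [inv_pow, ← one_div, le_div_iff₀ hρx]
    have e6 : (x : ℝ) ^ α0 * |b x| * ρ ^ x ≤ (x : ℝ) ^ α0 * ρ ^ x * (2 * |c α0|) := by
      have : (x : ℝ) ^ α0 * ρ ^ x * |b x| ≤ (x : ℝ) ^ α0 * ρ ^ x * (2 * |c α0|) :=
        mul_le_mul_of_nonneg_left e2.le (by positivity)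
      linarith [mul_right_comm ((x : ℝ) ^ α0) |b x| (ρ ^ x)]
    have e7 : (x : ℝ) ^ α0 * ρ ^ x * (2 * |c α0|) ≤ 1 := by
      rw [lt_div_iff₀ (by positivity)] at e4
      exact e4.le
    exact e6.trans e7

end Pool.Agent.Run7.h728.DZ
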