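import Mathlib

/-!
# Double zeta values as sums over pairs
-/

set_option autoImplicit false

namespace Pool.Agent.Run7.h728.DZ

open Finset Filter Topology

/-- the double zeta value `ζ(p, q) = ∑_{m > n ≥ 1} m ^ (-p) n ^ (-q)` -/
noncomputable def dz (p q : ℕ) : ℝ :=
  ∑' m : ℕ, (∑ n ∈ Finset.Ico 1 (m + 1), 1 / (n : ℝ) ^ q) / ((m + 1 : ℕ) : ℝ) ^ p

/-- the zeta value `ζ(w)` -/
noncomputable def zv (w : ℕ) : ℝ := ∑' m : ℕ, 1 / ((m + 1 : ℕ) : ℝ) ^ w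

/-- the terms of a double zeta value -/
noncomputable def tm (p q : ℕ) (b : ℕ × ℕ) : ℝ :=
  if b.2 < b.1 then 1 / (((b.1 + 1 : ℕ) : ℝ) ^ p * ((b.2 + 1 : ℕ) : ℝ) ^ q) else 0

lemma tm_nonneg (p q : ℕ) (b : ℕ × ℕ) : 0 ≤ tm p q b := by
  unfold tm
  split_ifs
  · positivity
  · exact le_rfl

lemma tm_le {p q : ℕ} (h : (2 ≤ p ∧ 2 ≤ q) ∨ (3 ≤ p ∧ 1 ≤ q)) (b : ℕ × ℕ) :
    tm p q b ≤ 1 / ((b.1 + 1 : ℕ) : ℝ) ^ 2 * (1 / ((b.2 + 1 : ℕ) : ℝ) ^ 2) := by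
  unfold tm
  split_ifs with hb
  · have hM : (1 : ℝ) ≤ ((b.1 + 1 : ℕ) : ℝ) := by exact_mod_cast Nat.succ_le_succ (Nat.zero_le _)
    have hN : (1 : ℝ) ≤ ((b.2 + 1 : ℕ) : ℝ) := by exact_mod_cast Nat.succ_le_succ (Nat.zero_le _)
    have hNM : ((b.2 + 1 : ℕ) : ℝ) ≤ ((b.1 + 1 : ℕ) : ℝ) := by
      exact_mod_cast Nat.succ_le_succ hb.le
    set M : ℝ := ((b.1 + 1 : ℕ) : ℝ) with hMdef
    set N : ℝ := ((b.2 + 1 : ℕ) : ℝ) with hNdef
    rw [← one_div_mul_one_div_rev, mul_comm (1 / N ^ q)]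
    rw [one_div_mul_one_div, one_div_mul_one_div]
    refine one_div_le_one_div_of_le (by positivity) ?_
    rcases h with ⟨h1, h2⟩ | ⟨h1, h2⟩
    · exact mul_le_mul (pow_le_pow_right₀ hM h1) (pow_le_pow_right₀ hN h2) (by positivity)
        (by positivity)
    · calc M ^ 2 * N ^ 2 = (M ^ 2 * N) * N := by ring
        _ ≤ (M ^ 2 * M) * N ^ q := by
          refine mul_le_mul (mul_le_mul_of_nonneg_left hNM (by positivity)) ?_ (by positivity)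
            (by positivity)
          calc N = N ^ 1 := (pow_one _).symm
            _ ≤ N ^ q := pow_le_pow_right₀ hN h2
        _ = M ^ 3 * N ^ q := by ring
        _ ≤ M ^ p * N ^ q := mul_le_mul_of_nonneg_right (pow_le_pow_right₀ hM h1) (by positivity)
  · positivity

lemma summable_sq : Summable fun n : ℕ => 1 / ((n + 1 : ℕ) : ℝ) ^ 2 :=
  (summable_nat_add_iff 1).2 (Real.summable_one_div_nat_pow.2 (by norm_num))

lemma tm_summable {p q : ℕ} (h : (2 ≤ p ∧ 2 ≤ q) ∨ (3 ≤ p ∧ 1 ≤ q)) : Summable (tm p q) :=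
  Summable.of_nonneg_of_le (tm_nonneg p q) (tm_le h)
    (summable_sq.mul_of_nonneg summable_sq (fun _ => by positivity) (fun _ => by positivity))

lemma tm_inner (p q m : ℕ) : ∑' n, tm p q (m, n) =
    (∑ n ∈ Finset.Ico 1 (m + 1), 1 / (n : ℝ) ^ q) / ((m + 1 : ℕ) : ℝ) ^ p := by
  rw [tsum_eq_sum (s := Finset.range m) (fun n hn => by
    unfold tm
    rw [if_neg]
    simpa using hn)]
  rw [Finset.sum_div, Finset.sum_Ico_eq_sum_range]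
  refine Finset.sum_congr (by simp) fun n hn => ?_
  have h1 : n < m := by simpa using hn
  unfold tm
  rw [if_pos (show (m, n).2 < (m, n).1 from h1)]
  rw [add_comm 1 n]
  field_simp

lemma tm_hasSum {p q : ℕ} (h : (2 ≤ p ∧ 2 ≤ q) ∨ (3 ≤ p ∧ 1 ≤ q)) :
    HasSum (tm p q) (dz p q) := by
  have h1 := (tm_summable h).hasSum
  have h2 : ∑' b, tm p q b = dz p q := by
    rw [(tm_summable h).tsum_prod]
    unfold dz
    exact tsum_congr fun m => tm_inner p q m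
  rwa [h2] at h1

lemma zv_hasSum {w : ℕ} (hw : 2 ≤ w) : HasSum (fun m : ℕ => 1 / ((m + 1 : ℕ) : ℝ) ^ w) (zv w) := by
  have h1 : Summable fun m : ℕ => 1 / ((m + 1 : ℕ) : ℝ) ^ w :=
    (summable_nat_add_iff 1).2 (Real.summable_one_div_nat_pow.2 (by omega))
  exact h1.hasSum

lemma zv_pos {w : ℕ} (hw : 2 ≤ w) : 0 < zv w := by
  have h := zv_hasSum hw
  refine lt_of_lt_of_le (by norm_num : (0 : ℝ) < 1 / ((0 + 1 : ℕ) : ℝ) ^ w)
    (le_hasSum h 0 fun _ _ => by positivity)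

/-- the frequency of the pair -/
def fr (W r : ℕ) (b : ℕ × ℕ) : ℕ := (b.1 + 1) ^ r * (b.2 + 1) ^ (W - r)

/-- the part of the term which does not depend on the parameter -/
noncomputable def hh (a b : ℤ) (c : ℕ × ℕ) : ℝ :=
  if c.2 < c.1 then ((c.1 + 1 : ℕ) : ℝ) ^ (-a) * ((c.2 + 1 : ℕ) : ℝ) ^ (-b) else 0

lemma hh_nonneg (a b : ℤ) (c : ℕ × ℕ) : 0 ≤ hh a b c := by
  unfold hh
  split_ifs
  · positivity
  · exact le_rfl

lemma fr_pos (W r : ℕ) (b : ℕ × ℕ) : 0 < fr W r b := by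
  unfold fr
  positivity

lemma tm_eq {W r : ℕ} {a b : ℤ} {x p q : ℕ} (hp : (p : ℤ) = r * x + a)
    (hq : (q : ℤ) = ((W - r : ℕ) : ℤ) * x + b) (c : ℕ × ℕ) :
    tm p q c = hh a b c / (fr W r c : ℝ) ^ x := by
  unfold tm hh
  split_ifs with h
  · have hM : (((c.1 + 1 : ℕ) : ℝ)) ≠ 0 := by positivity
    have hN : (((c.2 + 1 : ℕ) : ℝ)) ≠ 0 := by positivity
    unfold fr
    rw [Nat.cast_mul, Nat.cast_pow, Nat.cast_pow]
    rw [← zpow_natCast _ p, ← zpow_natCast _ q, hp, hq, zpow_add₀ hM, zpow_add₀ hN, zpow_mul,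
      zpow_mul, zpow_natCast, zpow_natCast, zpow_natCast, zpow_natCast, zpow_neg, zpow_neg, mul_pow]
    field_simp
  · simp

/-- the Dirichlet coefficient -/
noncomputable def CC (W r : ℕ) (a b : ℤ) (μ : ℕ) : ℝ := ∑' c : fr W r ⁻¹' {μ}, hh a b c

lemma CC_hasSum {W r : ℕ} {a b : ℤ} {x p q : ℕ} (hp : (p : ℤ) = r * x + a)
    (hq : (q : ℤ) = ((W - r : ℕ) : ℤ) * x + b) (h : (2 ≤ p ∧ 2 ≤ q) ∨ (3 ≤ p ∧ 1 ≤ q)) :
    HasSum (fun μ : ℕ => CC W r a b μ / (μ : ℝ) ^ x) (dz p q) := by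
  have h1 := (tm_hasSum h).tsum_fiberwise (fr W r)
  refine h1.congr_fun ?_
  intro μ
  unfold CC
  rw [← tsum_div_const]
  refine tsum_congr fun c => ?_
  have h2 : fr W r (c : ℕ × ℕ) = μ := c.2
  rw [tm_eq hp hq, h2]

lemma CC_nonneg (W r : ℕ) (a b : ℤ) (μ : ℕ) : 0 ≤ CC W r a b μ :=
  tsum_nonneg fun c => hh_nonneg a b c

lemma CC_zero (W r : ℕ) (a b : ℤ) : CC W r a b 0 = 0 := by
  unfold CC
  have : IsEmpty (fr W r ⁻¹' {0}) := ⟨fun c => (fr_pos W r c).ne' c.2⟩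
  exact tsum_empty

/-- the Dirichlet coefficient of a zeta value -/
noncomputable def CE (W : ℕ) (w : ℤ) (μ : ℕ) : ℝ :=
  ∑' c : (fun m : ℕ => (m + 1) ^ W) ⁻¹' {μ}, (((c : ℕ) + 1 : ℕ) : ℝ) ^ (-w)

lemma CE_hasSum {W : ℕ} {w : ℤ} {x v : ℕ} (hv : (v : ℤ) = W * x + w) (h2 : 2 ≤ v) :
    HasSum (fun μ : ℕ => CE W w μ / (μ : ℝ) ^ x) (zv v) := by
  have h1 := (zv_hasSum h2).tsum_fiberwise (fun m : ℕ => (m + 1) ^ W)
  refine h1.congr_fun ?_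
  intro μ
  unfold CE
  rw [← tsum_div_const]
  refine tsum_congr fun c => ?_
  have h3 : ((c : ℕ) + 1) ^ W = μ := c.2
  have hM : ((((c : ℕ) + 1 : ℕ) : ℝ)) ≠ 0 := by positivity
  have h4 : (μ : ℝ) = ((((c : ℕ) + 1 : ℕ) : ℝ)) ^ W := by exact_mod_cast h3.symm
  rw [h4, ← zpow_natCast _ v, hv, zpow_add₀ hM, zpow_mul, zpow_natCast,
    zpow_natCast, zpow_neg]
  field_simp

lemma CE_nonneg (W : ℕ) (w : ℤ) (μ : ℕ) : 0 ≤ CE W w μ :=
  tsum_nonneg fun c => by positivity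

lemma CE_zero (W : ℕ) (w : ℤ) : CE W w 0 = 0 := by
  unfold CE
  have : IsEmpty ((fun m : ℕ => (m + 1) ^ W) ⁻¹' {0}) :=
    ⟨fun c => (pow_pos (Nat.succ_pos (c : ℕ)) W).ne' c.2⟩
  exact tsum_empty

end Pool.Agent.Run7.h728.DZ
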