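import Pool.Agent.Run7.h728.DZ.Basic

/-!
# The Dirichlet coefficients at special places
-/

set_option autoImplicit false

namespace Pool.Agent.Run7.h728.DZ

open Finset Filter Topology

lemma fst_prime {W ρ r P : ℕ} (hP : P.Prime) (hr : 1 ≤ r) {c : ℕ × ℕ} (hc : c.2 < c.1)
    (h : fr W r c = P ^ ρ) : ∃ i, 1 ≤ i ∧ c.1 + 1 = P ^ i ∧ i * r ≤ ρ := by
  have h1 : (c.1 + 1) ^ r ∣ P ^ ρ := by
    rw [← h]
    unfold fr
    exact dvd_mul_right _ _
  have h2 : c.1 + 1 ∣ P ^ ρ := (dvd_pow_self _ (by omega)).trans h1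
  obtain ⟨i, -, hi⟩ := (Nat.dvd_prime_pow hP).1 h2
  refine ⟨i, ?_, hi, ?_⟩
  · by_contra hcon
    have h0 : i = 0 := by omega
    rw [h0, pow_zero] at hi
    omega
  · rw [hi, ← pow_mul] at h1
    exact (Nat.pow_dvd_pow_iff_le_right hP.one_lt).1 h1

lemma CC_prime_zero {W ρ r P : ℕ} (hP : P.Prime) (h0 : 0 < ρ) (hW : ρ < W)
    (h : r = 0 ∨ ρ < r) (a b : ℤ) : CC W r a b (P ^ ρ) = 0 := by
  unfold CC
  have h1 : ∀ c : fr W r ⁻¹' {P ^ ρ}, hh a b c = 0 := by
    intro c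
    have hc : fr W r (c : ℕ × ℕ) = P ^ ρ := c.2
    unfold hh
    rw [if_neg]
    intro hlt
    rcases h with h | h
    · subst h
      have h2 : ((c : ℕ × ℕ).2 + 1) ^ W = P ^ ρ := by
        have h20 := hc
        unfold fr at h20
        simpa using h20
      have h3 : (c : ℕ × ℕ).2 + 1 ∣ P ^ ρ :=
        (dvd_pow_self _ (by omega : W ≠ 0)).trans (dvd_of_eq h2)
      obtain ⟨j, -, hj⟩ := (Nat.dvd_prime_pow hP).1 h3
      rw [hj, ← pow_mul] at h2
      have h4 : j * W = ρ := Nat.pow_right_injective hP.two_le h2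
      rcases Nat.eq_zero_or_pos j with h5 | h5
      · subst h5
        omega
      · have : W ≤ j * W := Nat.le_mul_of_pos_left W h5
        omega
    · obtain ⟨i, hi, -, h2⟩ := fst_prime hP (by omega) hlt hc
      have : r ≤ i * r := Nat.le_mul_of_pos_left r hi
      omega
  rw [tsum_congr h1, tsum_zero]

lemma CC_prime_eq {W ρ P : ℕ} (hP : P.Prime) (h0 : 0 < ρ) (hW : ρ < W) (a b : ℤ) :
    CC W ρ a b (P ^ ρ) = (P : ℝ) ^ (-a) := by
  have hP2 := hP.two_le
  have hmem : ((P - 1, 0) : ℕ × ℕ) ∈ fr W ρ ⁻¹' {P ^ ρ} := by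
    show fr W ρ (P - 1, 0) = P ^ ρ
    unfold fr
    simp only [zero_add, one_pow, mul_one]
    congr 1
    omega
  unfold CC
  rw [tsum_eq_single (⟨(P - 1, 0), hmem⟩ : fr W ρ ⁻¹' {P ^ ρ})]
  · unfold hh
    rw [if_pos (show (0 : ℕ) < P - 1 by omega)]
    have e1 : P - 1 + 1 = P := by omega
    simp only [e1]
    simp
  · intro c hne
    have hc : fr W ρ (c : ℕ × ℕ) = P ^ ρ := c.2
    unfold hh
    rw [if_neg]
    intro hlt
    apply hne
    obtain ⟨i, hi, h1, h2⟩ := fst_prime hP h0 hlt hc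
    have hi1 : i = 1 := by
      by_contra hcon
      have h3 : 2 ≤ i := by omega
      have h4 : 2 * ρ ≤ i * ρ := Nat.mul_le_mul_right _ h3
      omega
    subst hi1
    rw [pow_one] at h1
    have h5 : P ^ ρ * ((c : ℕ × ℕ).2 + 1) ^ (W - ρ) = P ^ ρ := by
      have h6 := hc
      unfold fr at h6
      rwa [h1] at h6
    have h6 : ((c : ℕ × ℕ).2 + 1) ^ (W - ρ) = 1 := by
      have h7 : 0 < P ^ ρ := pow_pos hP.pos _
      exact Nat.eq_of_mul_eq_mul_left h7 (by rw [h5, mul_one])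
    have h7 : (c : ℕ × ℕ).2 + 1 = 1 := (Nat.pow_eq_one.1 h6).resolve_right (by omega)
    apply Subtype.ext
    refine Prod.ext ?_ ?_
    · show (c : ℕ × ℕ).1 = P - 1
      omega
    · show (c : ℕ × ℕ).2 = 0
      omega

lemma CE_prime {W ρ P : ℕ} (hP : P.Prime) (h0 : 0 < ρ) (hW : ρ < W) (w : ℤ) :
    CE W w (P ^ ρ) = 0 := by
  unfold CE
  have : IsEmpty ((fun m : ℕ => (m + 1) ^ W) ⁻¹' {P ^ ρ}) := by
    refine ⟨fun c => ?_⟩
    have h2 : ((c : ℕ) + 1) ^ W = P ^ ρ := c.2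
    have h3 : (c : ℕ) + 1 ∣ P ^ ρ :=
      (dvd_pow_self _ (by omega : W ≠ 0)).trans (dvd_of_eq h2)
    obtain ⟨j, -, hj⟩ := (Nat.dvd_prime_pow hP).1 h3
    rw [hj, ← pow_mul] at h2
    have h4 : j * W = ρ := Nat.pow_right_injective hP.two_le h2
    rcases Nat.eq_zero_or_pos j with h5 | h5
    · subst h5
      omega
    · have : W ≤ j * W := Nat.le_mul_of_pos_left W h5
      omega
  exact tsum_empty

lemma CE_top {W M : ℕ} (hW : 1 ≤ W) (hM : 1 ≤ M) (w : ℤ) : CE W w (M ^ W) = (M : ℝ) ^ (-w) := by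
  unfold CE
  have hmem : M - 1 ∈ (fun m : ℕ => (m + 1) ^ W) ⁻¹' {M ^ W} := by
    show (M - 1 + 1) ^ W = M ^ W
    congr 1
    omega
  rw [tsum_eq_single (⟨M - 1, hmem⟩ : (fun m : ℕ => (m + 1) ^ W) ⁻¹' {M ^ W})]
  · have e1 : M - 1 + 1 = M := by omega
    simp only [e1]
  · intro c hne
    exfalso
    apply hne
    apply Subtype.ext
    have h2 : ((c : ℕ) + 1) ^ W = M ^ W := c.2
    have h3 : (c : ℕ) + 1 = M := Nat.pow_left_injective (by omega : W ≠ 0) h2
    show (c : ℕ) = M - 1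
    omega

lemma CC_top {W M : ℕ} (hW : 1 ≤ W) (hM : 1 ≤ M) (a : ℤ) (b : ℕ) :
    CC W W a b (M ^ W) = (M : ℝ) ^ (-a) * ∑ n ∈ Finset.Ico 1 M, 1 / (n : ℝ) ^ b := by
  have e1 : M - 1 + 1 = M := by omega
  have hmem : ∀ n : ℕ, ((M - 1, n) : ℕ × ℕ) ∈ fr W W ⁻¹' {M ^ W} := by
    intro n
    show fr W W (M - 1, n) = M ^ W
    unfold fr
    simp [e1]
  let e : ℕ ≃ fr W W ⁻¹' {M ^ W} :=
    { toFun := fun n => ⟨(M - 1, n), hmem n⟩
      invFun := fun c => (c : ℕ × ℕ).2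
      left_inv := fun n => rfl
      right_inv := fun c => by
        apply Subtype.ext
        have h2 : fr W W (c : ℕ × ℕ) = M ^ W := c.2
        unfold fr at h2
        simp only [Nat.sub_self, pow_zero, mul_one] at h2
        have h3 : (c : ℕ × ℕ).1 + 1 = M := Nat.pow_left_injective (by omega : W ≠ 0) h2
        refine Prod.ext ?_ rfl
        show M - 1 = (c : ℕ × ℕ).1
        omega }
  unfold CC
  rw [← e.tsum_eq]
  rw [tsum_eq_sum (s := Finset.range (M - 1)) (fun n hn => by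
    show hh a b (M - 1, n) = 0
    unfold hh
    rw [if_neg]
    simpa using hn)]
  rw [Finset.mul_sum, Finset.sum_Ico_eq_sum_range]
  refine Finset.sum_congr rfl fun n hn => ?_
  have h1 : n < M - 1 := by simpa using hn
  show hh a b (M - 1, n) = _
  unfold hh
  rw [if_pos (show (M - 1, n).2 < (M - 1, n).1 from h1)]
  simp only [e1]
  rw [zpow_neg _ (b : ℤ), zpow_natCast, one_div, add_comm 1 n]

lemma CC_bot {W M : ℕ} (hW : 1 ≤ W) (hM : 1 ≤ M) {a : ℕ} (ha : 2 ≤ a) (b : ℤ) :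
    CC W 0 a b (M ^ W) = (M : ℝ) ^ (-b) * (zv a - ∑ n ∈ Finset.Ico 1 M, 1 / (n : ℝ) ^ a -
      1 / (M : ℝ) ^ a) := by
  obtain ⟨M, rfl⟩ : ∃ M', M = M' + 1 := ⟨M - 1, by omega⟩
  have hmem : ∀ m : ℕ, ((m, M) : ℕ × ℕ) ∈ fr W 0 ⁻¹' {(M + 1) ^ W} := by
    intro m
    show fr W 0 (m, M) = (M + 1) ^ W
    unfold fr
    simp
  let e : ℕ ≃ fr W 0 ⁻¹' {(M + 1) ^ W} :=
    { toFun := fun n => ⟨(n, M), hmem n⟩
      invFun := fun c => (c : ℕ × ℕ).1
      left_inv := fun n => rfl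
      right_inv := fun c => by
        apply Subtype.ext
        have h2 : fr W 0 (c : ℕ × ℕ) = (M + 1) ^ W := c.2
        unfold fr at h2
        simp only [Nat.sub_zero, pow_zero, one_mul] at h2
        have h3 : (c : ℕ × ℕ).2 + 1 = M + 1 := Nat.pow_left_injective (by omega : W ≠ 0) h2
        refine Prod.ext rfl ?_
        show M = (c : ℕ × ℕ).2
        omega }
  unfold CC
  rw [← e.tsum_eq]
  have h1 := zv_hasSum ha
  have h2 : HasSum (fun m : ℕ => if m < M + 1 then 1 / ((m + 1 : ℕ) : ℝ) ^ a else 0)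
      (∑ m ∈ Finset.range (M + 1), if m < M + 1 then 1 / ((m + 1 : ℕ) : ℝ) ^ a else 0) :=
    hasSum_sum_of_ne_finset_zero fun m hm => by
      rw [if_neg]
      simpa using hm
  have h3 := (h1.sub h2).mul_left (((M + 1 : ℕ) : ℝ) ^ (-b))
  have h4 : (∑ m ∈ Finset.range (M + 1), if m < M + 1 then 1 / ((m + 1 : ℕ) : ℝ) ^ a else 0) =
      ∑ n ∈ Finset.Ico 1 (M + 1), 1 / (n : ℝ) ^ a + 1 / ((M + 1 : ℕ) : ℝ) ^ a := by
    rw [Finset.sum_congr rfl (g := fun m : ℕ => 1 / ((m + 1 : ℕ) : ℝ) ^ a) (fun m hm => by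
      rw [if_pos (by simpa using hm)])]
    rw [Finset.sum_range_succ, Finset.sum_Ico_eq_sum_range]
    simp only [Nat.add_sub_cancel]
    congr 1
    exact Finset.sum_congr rfl fun n _ => by rw [add_comm 1 n]
  rw [h4] at h3
  have h5 : (∑' c : ℕ, hh a b (e c : ℕ × ℕ)) =
      ∑' m : ℕ, ((M + 1 : ℕ) : ℝ) ^ (-b) * (1 / ((m + 1 : ℕ) : ℝ) ^ a -
        if m < M + 1 then 1 / ((m + 1 : ℕ) : ℝ) ^ a else 0) := by
    refine tsum_congr fun m => ?_
    show hh a b (m, M) = _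
    unfold hh
    by_cases hm : M < m
    · rw [if_pos (show (m, M).2 < (m, M).1 from hm), if_neg (by omega), sub_zero]
      simp only
      rw [zpow_neg _ (a : ℤ), zpow_natCast, one_div, mul_comm]
    · rw [if_neg (show ¬ (m, M).2 < (m, M).1 from hm), if_pos (by omega), sub_self, mul_zero]
  rw [h5, h3.tsum_eq]
  ring

/-- a Laurent polynomial which vanishes at all primes -/
lemma laurent {ι : Type} (s : Finset ι) (a : ι → ℤ) (ha : Set.InjOn a s) (γ : ι → ℝ)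
    (h : ∀ P : ℕ, P.Prime → ∑ i ∈ s, γ i * (P : ℝ) ^ (-a i) = 0) : ∀ i ∈ s, γ i = 0 := by
  classical
  obtain ⟨A, hA⟩ : ∃ A : ℤ, ∀ i ∈ s, a i ≤ A := by
    refine ⟨∑ i ∈ s, |a i|, fun i hi => ?_⟩
    exact (le_abs_self _).trans (Finset.single_le_sum (f := fun i => |a i|)
      (fun j _ => abs_nonneg _) hi)
  set e : ι → ℕ := fun i => (A - a i).toNat with he
  have he' : ∀ i ∈ s, (e i : ℤ) = A - a i := fun i hi => by
    rw [he]
    have := hA i hi
    exact Int.toNat_of_nonneg (by omega)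
  set p : Polynomial ℝ := ∑ i ∈ s, Polynomial.monomial (e i) (γ i) with hp
  have hroot : ∀ P : ℕ, P.Prime → p.IsRoot (P : ℝ) := by
    intro P hP
    rw [Polynomial.IsRoot, hp, Polynomial.eval_finsetSum]
    have hP0 : (P : ℝ) ≠ 0 := by exact_mod_cast hP.ne_zero
    have h1 : ∀ i ∈ s, (Polynomial.monomial (e i) (γ i)).eval (P : ℝ) =
        (P : ℝ) ^ A * (γ i * (P : ℝ) ^ (-a i)) := by
      intro i hi
      rw [Polynomial.eval_monomial, ← zpow_natCast, he' i hi, sub_eq_add_neg, zpow_add₀ hP0]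
      ring
    rw [Finset.sum_congr rfl h1, ← Finset.mul_sum, h P hP, mul_zero]
  have hp0 : p = 0 := by
    refine Polynomial.eq_zero_of_infinite_isRoot p ?_
    refine (Nat.infinite_setOfPred_prime.image (f := fun n : ℕ => (n : ℝ))
      (Nat.cast_injective.injOn)).mono ?_
    rintro _ ⟨P, hP, rfl⟩
    exact hroot P hP
  intro i hi
  have h2 : p.coeff (e i) = γ i := by
    rw [hp, Polynomial.finsetSum_coeff, Finset.sum_eq_single i]
    · rw [Polynomial.coeff_monomial, if_pos rfl]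
    · intro j hj hji
      rw [Polynomial.coeff_monomial, if_neg]
      intro h3
      apply hji
      apply ha hj hi
      have h4 := he' j hj
      have h5 := he' i hi
      rw [h3] at h4
      omega
    · intro h3
      exact absurd hi h3
  rw [← h2, hp0, Polynomial.coeff_zero]

end Pool.Agent.Run7.h728.DZ
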