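import Pool.Agent.Run7.h728.DZ.Step
import Pool.Agent.R404.MZ.Box

/-!
# The slopes at the two ends
-/

set_option autoImplicit false

namespace Pool.Agent.Run7.h728.DZ

open Finset Filter Topology
open Pool.Agent.Y760.ZG (hr hr_nil hr_cons)

/-- the harmonic sum -/
noncomputable def hs (M s : ℕ) : ℝ := ∑ n ∈ Finset.Ico 1 M, 1 / (n : ℝ) ^ s

lemma hr_one' (s m : ℕ) : hr [s] m = hs m s := by
  rw [hr_cons, hs]
  simp only [hr_nil]

/-- powers and powers times harmonic sums are linearly independent -/
lemma box2 (K : ℕ) (w0 : ℤ) (u v : ℕ → ℝ)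
    (h : ∀ M : ℕ, 1 ≤ M → ∑ j ∈ Finset.range K, u j * ((M : ℝ) ^ (-(w0 - ((j + 1 : ℕ) : ℤ))) *
        hs M (j + 1)) +
      ∑ j ∈ Finset.range (K + 1), v j * (M : ℝ) ^ (-(w0 - (j : ℤ))) = 0) :
    (∀ j, j < K → u j = 0) ∧ ∀ j, j ≤ K → v j = 0 := by
  classical
  set a : Fin K ⊕ Fin (K + 1) → ℤ := Sum.elim (fun j => w0 - (((j : ℕ) + 1 : ℕ) : ℤ))
    (fun j => w0 - ((j : ℕ) : ℤ)) with ha
  set k : Fin K ⊕ Fin (K + 1) → List ℕ := Sum.elim (fun j => [(j : ℕ) + 1]) (fun _ => []) with hk
  set c : Fin K ⊕ Fin (K + 1) → ℝ := Sum.elim (fun j => u j) (fun j => v j) with hc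
  have hc0 : c = 0 := by
    by_contra hne
    obtain ⟨m, hm, -, h1⟩ := Pool.Agent.R404.MZ.box_nonzero K 1 K a k c (by
      rintro (j | j)
      · refine ⟨by simp [hk], ?_⟩
        intro x hx
        have h2 : x = (j : ℕ) + 1 := by simpa [hk] using hx
        have := j.2
        omega
      · refine ⟨by simp [hk], ?_⟩
        intro x hx
        simp [hk] at hx) (by
      rintro (i | i) (j | j) <;> simp only [ha, Sum.elim_inl, Sum.elim_inr] <;>
        have h2 := i.2 <;> have h3 := j.2 <;> push_cast <;> omega) (by
      rintro (i | i) (j | j) hij <;>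
        simp only [ha, hk, Sum.elim_inl, Sum.elim_inr, Prod.mk.injEq] at hij
      · congr 1
        apply Fin.ext
        have := hij.1
        push_cast at this
        omega
      · exact absurd hij.2 (by simp)
      · exact absurd hij.2 (by simp)
      · congr 1
        apply Fin.ext
        have := hij.1
        omega) hne
    apply h1
    have h2 := h m hm
    unfold Pool.Agent.R404.MZ.cmb
    rw [Fintype.sum_sum_type]
    rw [Finset.sum_range, Finset.sum_range] at h2
    have e1 : ∑ j : Fin K, c (Sum.inl j) * Pool.Agent.R404.MZ.co (a (Sum.inl j)) (k (Sum.inl j)) m =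
        ∑ j : Fin K, u j * ((m : ℝ) ^ (-(w0 - (((j : ℕ) + 1 : ℕ) : ℤ))) * hs m ((j : ℕ) + 1)) := by
      refine Finset.sum_congr rfl fun j _ => ?_
      simp only [hc, ha, hk, Sum.elim_inl]
      unfold Pool.Agent.R404.MZ.co
      rw [hr_one']
    have e2 : ∑ j : Fin (K + 1), c (Sum.inr j) *
        Pool.Agent.R404.MZ.co (a (Sum.inr j)) (k (Sum.inr j)) m =
        ∑ j : Fin (K + 1), v j * (m : ℝ) ^ (-(w0 - ((j : ℕ) : ℤ))) := by
      refine Finset.sum_congr rfl fun j _ => ?_
      simp only [hc, ha, hk, Sum.elim_inr]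
      unfold Pool.Agent.R404.MZ.co
      rw [hr_nil, mul_one]
    rw [e1, e2]
    exact h2
  refine ⟨fun j hj => ?_, fun j hj => ?_⟩
  · exact congrFun hc0 (Sum.inl ⟨j, hj⟩)
  · exact congrFun hc0 (Sum.inr ⟨j, Nat.lt_succ_of_le hj⟩)

/-- distinct families have linearly independent Dirichlet coefficients -/
theorem coef_indep {ι : Type} [Fintype ι] (W : ℕ) (hW : 1 ≤ W) (w0 : ℤ) (r : ι → ℕ) (a : ι → ℤ)
    (hr : ∀ i, r i ≤ W) (hinj : Function.Injective fun i => (r i, a i))
    (h0 : ∀ i, r i = 0 → 2 ≤ a i) (h1 : ∀ i, r i = W → a i < w0)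
    (γ : ι → ℝ) (γe : ℝ)
    (h : ∀ μ : ℕ, ∑ i, γ i * CC W (r i) (a i) (w0 - a i) μ + γe * CE W w0 μ = 0) :
    (∀ i, γ i = 0) ∧ γe = 0 := by
  classical
  have hmid : ∀ i, 0 < r i → r i < W → γ i = 0 := fun i h2 h3 =>
    middle_zero W w0 r a hinj γ γe h (r i) h2 h3 i rfl
  obtain ⟨K, hK⟩ : ∃ K : ℕ, ∀ i, (w0 - a i).toNat ≤ K ∧ (a i).toNat ≤ K := by
    refine ⟨∑ i, ((w0 - a i).toNat + (a i).toNat), fun i => ?_⟩
    have h2 := Finset.single_le_sum (f := fun i => (w0 - a i).toNat + (a i).toNat)
      (fun j _ => Nat.zero_le _) (Finset.mem_univ i)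
    omega
  set U : ι → ℕ → ℝ := fun i j => (if r i = W ∧ (w0 - a i).toNat = j + 1 then γ i else 0) -
    (if r i = 0 ∧ (a i).toNat = j + 1 then γ i else 0) with hU
  set V : ι → ℕ → ℝ := fun i j => (if r i = 0 ∧ (a i).toNat = j then γ i * zv j else 0) -
    (if r i = 0 ∧ j = 0 then γ i else 0) with hV
  have hterm : ∀ (M : ℕ), 1 ≤ M → ∀ i,
      (if r i = W then γ i * ((M : ℝ) ^ (-a i) * hs M (w0 - a i).toNat) else 0) +
        (if r i = 0 then γ i * ((M : ℝ) ^ (-(w0 - a i)) * (zv (a i).toNat -
          hs M (a i).toNat - 1 / (M : ℝ) ^ (a i).toNat)) else 0) =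
      ∑ j ∈ Finset.range K, U i j * ((M : ℝ) ^ (-(w0 - ((j + 1 : ℕ) : ℤ))) *
        hs M (j + 1)) +
      ∑ j ∈ Finset.range (K + 1), V i j * (M : ℝ) ^ (-(w0 - (j : ℤ))) := by
    intro M hM i
    have hM0 : (M : ℝ) ≠ 0 := by
      have : 0 < M := hM
      exact_mod_cast this.ne'
    by_cases hi : r i = W
    · have h2 : ¬ r i = 0 := by omega
      rw [if_pos hi, if_neg h2, add_zero]
      have h3 := h1 i hi
      have h4 : ((w0 - a i).toNat : ℤ) = w0 - a i := Int.toNat_of_nonneg (by omega)
      have h5 := (hK i).1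
      have h6 : ∑ j ∈ Finset.range (K + 1), V i j * (M : ℝ) ^ (-(w0 - (j : ℤ))) = 0 :=
        Finset.sum_eq_zero fun j _ => by
          simp only [hV]
          rw [if_neg (fun h => h2 h.1), if_neg (fun h => h2 h.1)]
          ring
      rw [h6, add_zero, Finset.sum_eq_single ((w0 - a i).toNat - 1)]
      · simp only [hU]
        have h7 : (w0 - a i).toNat - 1 + 1 = (w0 - a i).toNat := by omega
        rw [h7, if_pos ⟨hi, rfl⟩, if_neg (fun h => h2 h.1), sub_zero, h4]
        congr 3
        omega
      · intro j _ hj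
        simp only [hU]
        rw [if_neg (fun h => hj (by omega)), if_neg (fun h => h2 h.1)]
        ring
      · intro hj
        exfalso
        apply hj
        rw [Finset.mem_range]
        omega
    · by_cases h2 : r i = 0
      · rw [if_neg hi, if_pos h2, zero_add]
        have h3 := h0 i h2
        have h4 : ((a i).toNat : ℤ) = a i := Int.toNat_of_nonneg (by omega)
        have h5 := (hK i).2
        rw [Finset.sum_eq_single ((a i).toNat - 1)]
        · have h7 : (a i).toNat - 1 + 1 = (a i).toNat := by omega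
          have h8 : ∑ j ∈ Finset.range (K + 1), V i j * (M : ℝ) ^ (-(w0 - (j : ℤ))) =
              γ i * zv (a i).toNat * (M : ℝ) ^ (-(w0 - a i)) - γ i * (M : ℝ) ^ (-w0) := by
            simp only [hV, sub_mul]
            rw [Finset.sum_sub_distrib]
            congr 1
            · rw [Finset.sum_eq_single ((a i).toNat)]
              · rw [if_pos ⟨h2, rfl⟩, h4]
              · intro j _ hj
                rw [if_neg (fun h => hj h.2.symm), zero_mul]
              · intro hj
                exfalso
                apply hj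
                rw [Finset.mem_range]
                omega
            · rw [Finset.sum_eq_single 0]
              · rw [if_pos ⟨h2, rfl⟩]
                simp
              · intro j _ hj
                rw [if_neg (fun h => hj h.2), zero_mul]
              · intro hj
                exfalso
                apply hj
                rw [Finset.mem_range]
                omega
          rw [h8]
          simp only [hU]
          rw [h7, if_neg (fun h => hi h.1), if_pos ⟨h2, rfl⟩, h4]
          have h9 : (M : ℝ) ^ (-(w0 - a i)) * (1 / (M : ℝ) ^ (a i).toNat) = (M : ℝ) ^ (-w0) := by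
            rw [one_div, ← zpow_natCast, h4, ← zpow_neg, ← zpow_add₀ hM0]
            congr 1
            ring
          rw [← h9]
          ring
        · intro j _ hj
          simp only [hU]
          rw [if_neg (fun h => hi h.1), if_neg (fun h => hj (by omega))]
          ring
        · intro hj
          exfalso
          apply hj
          rw [Finset.mem_range]
          omega
      · rw [if_neg hi, if_neg h2]
        have e1 : ∀ j, U i j = 0 := fun j => by
          simp only [hU]
          rw [if_neg (fun h => hi h.1), if_neg (fun h => h2 h.1), sub_zero]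
        have e2 : ∀ j, V i j = 0 := fun j => by
          simp only [hV]
          rw [if_neg (fun h => h2 h.1), if_neg (fun h => h2 h.1), sub_zero]
        simp only [e1, e2, zero_mul, Finset.sum_const_zero]
  obtain ⟨hu, hv⟩ := box2 K w0 (fun j => ∑ i, U i j)
    (fun j => ∑ i, V i j + if j = 0 then γe else 0) (by
    intro M hM
    have h2 := ends_eq W hW w0 r a hr h0 h1 γ γe h hmid M hM
    have hfold : ∀ M s : ℕ, ∑ n ∈ Finset.Ico 1 M, 1 / (n : ℝ) ^ s = hs M s := fun _ _ => rfl
    simp only [hfold] at h2
    rw [Finset.sum_filter, Finset.sum_filter, ← Finset.sum_add_distrib,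
      Finset.sum_congr rfl (fun i _ => hterm M hM i), Finset.sum_add_distrib,
      Finset.sum_comm, Finset.sum_comm (s := Finset.univ) (t := Finset.range (K + 1)),
      add_assoc] at h2
    refine Eq.trans ?_ h2
    congr 1
    · exact Finset.sum_congr rfl fun j _ => by rw [Finset.sum_mul]
    · simp only [add_mul, Finset.sum_add_distrib, Finset.sum_mul]
      congr 1
      rw [Finset.sum_eq_single 0]
      · simp
      · intro j _ hj
        rw [if_neg hj, zero_mul]
      · intro hj
        exfalso
        apply hj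
        rw [Finset.mem_range]
        omega)
  have hbot : ∀ i, r i = 0 → γ i = 0 := by
    intro i hi
    have h2 := h0 i hi
    have h4 : ((a i).toNat : ℤ) = a i := Int.toNat_of_nonneg (by omega)
    have h3 := hv (a i).toNat (hK i).2
    rw [if_neg (by omega), add_zero, Finset.sum_eq_single i] at h3
    · simp only [hV] at h3
      rw [if_pos ⟨hi, trivial⟩, if_neg (by omega), sub_zero] at h3
      rcases mul_eq_zero.1 h3 with h5 | h5
      · exact h5
      · exact absurd h5 (zv_pos (by omega)).ne'
    · intro j _ hj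
      simp only [hV]
      rw [if_neg, if_neg (by omega), sub_zero]
      rintro ⟨h5, h6⟩
      apply hj
      apply hinj
      refine Prod.ext (h5.trans hi.symm) ?_
      show a j = a i
      have := h0 j h5
      omega
    · intro h5
      exact absurd (Finset.mem_univ i) h5
  have htop : ∀ i, r i = W → γ i = 0 := by
    intro i hi
    have h2 := h1 i hi
    have h4 : ((w0 - a i).toNat : ℤ) = w0 - a i := Int.toNat_of_nonneg (by omega)
    have h3 := hu ((w0 - a i).toNat - 1) (by
      have := (hK i).1
      omega)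
    rw [Finset.sum_eq_single i] at h3
    · simp only [hU] at h3
      rw [if_pos ⟨hi, by omega⟩, if_neg (by omega), sub_zero] at h3
      exact h3
    · intro j _ hj
      simp only [hU]
      rw [if_neg, zero_sub, neg_eq_zero]
      · split_ifs with h5
        · exact hbot j h5.1
        · rfl
      · rintro ⟨h5, h6⟩
        apply hj
        apply hinj
        refine Prod.ext (h5.trans hi.symm) ?_
        show a j = a i
        have := h1 j h5
        omega
    · intro h5
      exact absurd (Finset.mem_univ i) h5
  have hall : ∀ i, γ i = 0 := by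
    intro i
    rcases Nat.eq_zero_or_pos (r i) with h2 | h2
    · exact hbot i h2
    · rcases lt_or_eq_of_le (hr i) with h3 | h3
      · exact hmid i h2 h3
      · exact htop i h3
  refine ⟨hall, ?_⟩
  have h2 := hv 0 (Nat.zero_le _)
  rw [if_pos rfl, Finset.sum_eq_zero, zero_add] at h2
  · exact h2
  · intro i _
    simp only [hV, hall]
    simp

end Pool.Agent.Run7.h728.DZ
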