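import Pool.Agent.Run7.h728.DZ.Both

/-!
# Estimates
-/

set_option autoImplicit false

namespace Pool.Agent.Run7.h728.DZ

open Finset Filter Topology

lemma dz_nonneg {p q : ℕ} (h : (2 ≤ p ∧ 2 ≤ q) ∨ (3 ≤ p ∧ 1 ≤ q)) : 0 ≤ dz p q :=
  (tm_hasSum h).nonneg (tm_nonneg p q)

/-- double zeta values with a large first argument -/
lemma dz_le {p q : ℕ} (hp : 3 ≤ p) (hq : 1 ≤ q) : dz p q ≤ 8 * dz 3 1 * (1 / 2) ^ p := by
  have h1 : HasSum (fun b => (1 / 2 : ℝ) ^ (p - 3) * tm 3 1 b) ((1 / 2 : ℝ) ^ (p - 3) * dz 3 1) :=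
    (tm_hasSum (Or.inr ⟨le_rfl, le_rfl⟩)).mul_left _
  have h2 : dz p q ≤ (1 / 2 : ℝ) ^ (p - 3) * dz 3 1 := by
    refine hasSum_le (fun b => ?_) (tm_hasSum (Or.inr ⟨hp, hq⟩)) h1
    unfold tm
    split_ifs with hb
    · have hM : (2 : ℝ) ≤ ((b.1 + 1 : ℕ) : ℝ) := by exact_mod_cast (by omega : 2 ≤ b.1 + 1)
      have hN : (1 : ℝ) ≤ ((b.2 + 1 : ℕ) : ℝ) := by exact_mod_cast Nat.succ_le_succ (Nat.zero_le _)
      set M : ℝ := ((b.1 + 1 : ℕ) : ℝ) with hMdef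
      set n : ℝ := ((b.2 + 1 : ℕ) : ℝ) with hNdef
      have h3 : (2 : ℝ) ^ (p - 3) * (M ^ 3 * n ^ 1) ≤ M ^ p * n ^ q := by
        have h4 : (2 : ℝ) ^ (p - 3) ≤ M ^ (p - 3) := pow_le_pow_left₀ (by norm_num) hM _
        have h5 : M ^ p = M ^ (p - 3) * M ^ 3 := by
          rw [← pow_add]
          congr 1
          omega
        have h6 : n ^ 1 ≤ n ^ q := pow_le_pow_right₀ hN hq
        rw [h5, ← mul_assoc]
        exact mul_le_mul (mul_le_mul_of_nonneg_right h4 (by positivity)) h6 (by positivity)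
          (by positivity)
      rw [one_div_pow, one_div_mul_one_div]
      exact one_div_le_one_div_of_le (by positivity) h3
    · simp
  refine h2.trans (le_of_eq ?_)
  obtain ⟨t, rfl⟩ : ∃ t, p = t + 3 := ⟨p - 3, by omega⟩
  rw [Nat.add_sub_cancel, pow_add]
  ring

lemma zv_one {w : ℕ} (hw : 2 ≤ w) :
    HasSum (fun m : ℕ => 1 / ((m + 1 + 1 : ℕ) : ℝ) ^ w) (zv w - 1) := by
  have h1 := (hasSum_nat_add_iff' 1).2 (zv_hasSum hw)
  simpa using h1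

lemma zv_ge {w : ℕ} (hw : 2 ≤ w) : 1 ≤ zv w := by
  have := (zv_one hw).nonneg (fun m => by positivity)
  linarith

lemma zv_gt {w : ℕ} (hw : 2 ≤ w) : 1 < zv w := by
  have h1 := le_hasSum (zv_one hw) 0 (fun m _ => by positivity)
  have h2 : (0 : ℝ) < 1 / ((0 + 1 + 1 : ℕ) : ℝ) ^ w := by positivity
  linarith

lemma zv_le {w : ℕ} (hw : 2 ≤ w) : zv w - 1 ≤ 4 * zv 2 * (1 / 2) ^ w := by
  have h1 : HasSum (fun m : ℕ => (1 / 2 : ℝ) ^ (w - 2) * (1 / ((m + 1 + 1 : ℕ) : ℝ) ^ 2))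
      ((1 / 2 : ℝ) ^ (w - 2) * (zv 2 - 1)) := (zv_one le_rfl).mul_left _
  have h2 : zv w - 1 ≤ (1 / 2 : ℝ) ^ (w - 2) * (zv 2 - 1) := by
    refine hasSum_le (fun m => ?_) (zv_one hw) h1
    have hM : (2 : ℝ) ≤ ((m + 1 + 1 : ℕ) : ℝ) := by exact_mod_cast (by omega : 2 ≤ m + 1 + 1)
    set M : ℝ := ((m + 1 + 1 : ℕ) : ℝ) with hMdef
    have h3 : (2 : ℝ) ^ (w - 2) * M ^ 2 ≤ M ^ w := by
      have h4 : (2 : ℝ) ^ (w - 2) ≤ M ^ (w - 2) := pow_le_pow_left₀ (by norm_num) hM _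
      have h5 : M ^ w = M ^ (w - 2) * M ^ 2 := by
        rw [← pow_add]
        congr 1
        omega
      rw [h5]
      exact mul_le_mul_of_nonneg_right h4 (by positivity)
    rw [one_div_pow, one_div_mul_one_div]
    exact one_div_le_one_div_of_le (by positivity) h3
  obtain ⟨t, rfl⟩ : ∃ t, w = t + 2 := ⟨w - 2, by omega⟩
  rw [Nat.add_sub_cancel] at h2
  have h3 : (0 : ℝ) < (1 / 2) ^ t := by positivity
  calc zv (t + 2) - 1 ≤ (1 / 2 : ℝ) ^ t * (zv 2 - 1) := h2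
    _ ≤ (1 / 2 : ℝ) ^ t * zv 2 := mul_le_mul_of_nonneg_left (by linarith) h3.le
    _ = 4 * zv 2 * (1 / 2) ^ (t + 2) := by
      rw [pow_add]
      ring

lemma zv_anti {w : ℕ} (hw : 2 ≤ w) : zv w ≤ zv 2 := by
  refine hasSum_le (fun m => ?_) (zv_hasSum hw) (zv_hasSum le_rfl)
  have hM : (1 : ℝ) ≤ ((m + 1 : ℕ) : ℝ) := by exact_mod_cast Nat.succ_le_succ (Nat.zero_le _)
  exact one_div_le_one_div_of_le (by positivity) (pow_le_pow_right₀ hM hw)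

/-- the constant -/
noncomputable def KK : ℝ := 4 * zv 2 * zv 2 + 8 * dz 3 1 + 4 * zv 2

lemma KK_pos : 0 < KK := by
  unfold KK
  have h1 := zv_pos (le_refl 2)
  have h2 := dz_nonneg (p := 3) (q := 1) (Or.inr ⟨le_rfl, le_rfl⟩)
  positivity

/-- double zeta values with a small first argument -/
lemma dz_near {s t : ℕ} (hs : 2 ≤ s) (ht : 3 ≤ t) :
    |dz s t - (zv s - 1)| ≤ KK * (1 / 2) ^ t := by
  have h1 := stuffle hs (by omega : 2 ≤ t)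
  have h2 := dz_le ht (by omega : 1 ≤ s)
  have h3 := dz_nonneg (p := t) (q := s) (Or.inr ⟨ht, by omega⟩)
  have h4 := zv_le (w := t) (by omega)
  have h5 := zv_ge (w := t) (by omega)
  have h6 := zv_le (w := s + t) (by omega)
  have h7 := zv_ge (w := s + t) (by omega)
  have h8 := zv_anti hs
  have h9 := zv_pos hs
  have hz := zv_pos (le_refl 2)
  have hp : (0 : ℝ) < (1 / 2) ^ t := by positivity
  have h10 : (1 / 2 : ℝ) ^ (s + t) ≤ (1 / 2) ^ t :=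
    pow_le_pow_of_le_one (by norm_num) (by norm_num) (by omega)
  have e1 : dz s t - (zv s - 1) = zv s * (zv t - 1) - dz t s - (zv (s + t) - 1) := by
    rw [h1]
    ring
  have h11 : zv s * (zv t - 1) ≤ zv 2 * (4 * zv 2 * (1 / 2) ^ t) :=
    mul_le_mul h8 h4 (by linarith) hz.le
  have h12 : 0 ≤ zv s * (zv t - 1) := mul_nonneg h9.le (by linarith)
  have h13 : zv (s + t) - 1 ≤ 4 * zv 2 * (1 / 2) ^ t :=
    h6.trans (mul_le_mul_of_nonneg_left h10 (by positivity))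
  have h14 : 0 ≤ dz 3 1 := dz_nonneg (Or.inr ⟨le_rfl, le_rfl⟩)
  have h15 : 0 ≤ 8 * dz 3 1 * (1 / 2) ^ t := by positivity
  have h16 : 0 ≤ zv 2 * (4 * zv 2 * (1 / 2) ^ t) := by positivity
  have h17 : 0 ≤ 4 * zv 2 * (1 / 2) ^ t := by positivity
  rw [e1, abs_le]
  unfold KK
  constructor
  · nlinarith
  · nlinarith

/-! ### finitely many combinations -/

/-- the bounded coefficients -/
abbrev Om (J H : ℕ) : Type := (Fin J → Finset.Icc (-(H : ℤ)) H) × Finset.Icc (-(H : ℤ)) H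

/-- the limit of the small part -/
noncomputable def kap (J : ℕ) (c : ℕ → ℤ) (d : ℤ) : ℝ :=
  ∑ s ∈ Finset.Ico 2 J, (c s : ℝ) * (zv s - 1) + d

/-- the coefficients as a function -/
def ofO {J H : ℕ} (ω : Om J H) (s : ℕ) : ℤ := if h : s < J then (ω.1 ⟨s, h⟩ : ℤ) else 0

lemma exists_om {J H : ℕ} {c : ℕ → ℤ} {d : ℤ} (hc : ∀ s, |c s| ≤ H) (hd : |d| ≤ H) :
    ∃ ω : Om J H, (∀ s, s < J → ofO ω s = c s) ∧ (ω.2 : ℤ) = d := by
  refine ⟨(fun s => ⟨c s, Finset.mem_Icc.2 (abs_le.1 (hc s))⟩,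
    ⟨d, Finset.mem_Icc.2 (abs_le.1 hd)⟩), fun s hs => ?_, rfl⟩
  unfold ofO
  rw [dif_pos hs]

lemma kap_gap (J H : ℕ) : ∃ δ : ℝ, 0 < δ ∧ ∀ (c : ℕ → ℤ) (d : ℤ), (∀ s, |c s| ≤ H) → |d| ≤ H →
    |kap J c d| < δ → kap J c d = 0 := by
  set X : Set ℝ := Set.range (fun ω : Om J H => kap J (ofO ω) ω.2) \ {0} with hX
  have hXf : X.Finite := (Set.finite_range _).subset Set.sdiff_subset
  have h0 : (0 : ℝ) ∈ Xᶜ := by
    intro h
    exact h.2 rfl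
  obtain ⟨δ, hδ, hb⟩ := Metric.isOpen_iff.1 hXf.isClosed.isOpen_compl 0 h0
  refine ⟨δ, hδ, fun c d hc hd hlt => ?_⟩
  obtain ⟨ω, h1, h2⟩ := exists_om (J := J) hc hd
  have h3 : kap J (ofO ω) ω.2 = kap J c d := by
    unfold kap
    rw [h2]
    congr 1
    exact Finset.sum_congr rfl fun s hs => by rw [h1 s (Finset.mem_Ico.1 hs).2]
  by_contra hne
  have h4 : kap J c d ∈ Metric.ball (0 : ℝ) δ := by
    rw [Metric.mem_ball, Real.dist_eq, sub_zero]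
    exact hlt
  apply hb h4
  refine ⟨⟨ω, h3⟩, ?_⟩
  simpa using hne

/-- the small part and the large part -/
noncomputable def ext (J : ℕ) (c c' : ℕ → ℤ) (d : ℤ) (k : ℕ) : ℝ :=
  ∑ s ∈ Finset.Ico 2 J, (c s : ℝ) * dz s (k - s) +
    ∑ q ∈ Finset.Ico 1 J, (c' q : ℝ) * dz (k - q) q + d * zv k

lemma ext_ne (J H : ℕ) : ∀ᶠ k : ℕ in atTop, ∀ (c c' : ℕ → ℤ) (d : ℤ), (∀ s, |c s| ≤ H) →
    (∀ s, |c' s| ≤ H) → |d| ≤ H → (∃ s ∈ Finset.Ico 2 J, c s ≠ 0) → ext J c c' d k ≠ 0 := by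
  have h1 : ∀ ω : Om J H × Om J H, ∀ᶠ k : ℕ in atTop,
      (∃ s ∈ Finset.Ico 2 J, ofO ω.1 s ≠ 0) → ext J (ofO ω.1) (ofO ω.2) ω.1.2 k ≠ 0 := by
    rintro ⟨ω, ω'⟩
    by_cases hne : ∃ s ∈ Finset.Ico 2 J, ofO ω s ≠ 0
    · obtain ⟨s0, hs0, hc0⟩ := hne
      have h2 := both_box J (Finset.Ico 2 J) (Finset.Ico 1 J) (fun s => (ofO ω s : ℝ))
        (fun s => (ofO ω' s : ℝ)) (ω.2 : ℤ)
        (fun p hp => ⟨(Finset.mem_Ico.1 hp).1, (Finset.mem_Ico.1 hp).2.le⟩)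
        (fun q hq => ⟨(Finset.mem_Ico.1 hq).1, (Finset.mem_Ico.1 hq).2.le⟩)
        (Or.inl ⟨s0, hs0, by exact_mod_cast hc0⟩)
      have hfin : {k : ℕ | J + 2 ≤ k ∧ ∑ p ∈ Finset.Ico 2 J, (ofO ω p : ℝ) * dz p (k - p) +
          ∑ q ∈ Finset.Ico 1 J, (ofO ω' q : ℝ) * dz (k - q) q +
            (((ω.2 : ℤ) : ℝ)) * zv k = 0}.Finite :=
        Set.finite_of_encard_le_coe h2
      obtain ⟨b, hb⟩ := hfin.bddAbove
      filter_upwards [eventually_ge_atTop (b + J + 3)] with k hk _ h3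
      have h4 : k ≤ b := hb ⟨by omega, h3⟩
      omega
    · exact Filter.Eventually.of_forall fun k h => absurd h hne
  filter_upwards [Filter.eventually_all.2 h1] with k hk c c' d hc hc' hd hne
  obtain ⟨ω, h2, h3⟩ := exists_om (J := J) hc hd
  obtain ⟨ω', h2', -⟩ := exists_om (J := J) hc' hd
  have h4 : ext J (ofO ω) (ofO ω') ω.2 k = ext J c c' d k := by
    unfold ext
    rw [h3]
    congr 2
    · exact Finset.sum_congr rfl fun s hs => by rw [h2 s (Finset.mem_Ico.1 hs).2]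
    · exact Finset.sum_congr rfl fun s hs => by rw [h2' s (Finset.mem_Ico.1 hs).2]
  rw [← h4]
  refine hk (ω, ω') ?_
  obtain ⟨s, hs, hcs⟩ := hne
  exact ⟨s, hs, by rwa [h2 s (Finset.mem_Ico.1 hs).2]⟩

lemma dz_ge {p q : ℕ} (hp : 3 ≤ p) (hq : 1 ≤ q) : (1 / 2 : ℝ) ^ p ≤ dz p q := by
  have h1 := le_hasSum (tm_hasSum (p := p) (q := q) (Or.inr ⟨hp, hq⟩)) (1, 0)
    (fun b _ => tm_nonneg p q b)
  refine le_trans (le_of_eq ?_) h1
  unfold tm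
  rw [if_pos (by norm_num)]
  norm_num
  rw [one_div, inv_pow]

end Pool.Agent.Run7.h728.DZ
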