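import Pool.Agent.Run7.h728.DZ.Indep
import Pool.Agent.Run7.h728.DZ.Ends

/-!
# Linear families of double zeta values
-/

set_option autoImplicit false

namespace Pool.Agent.Run7.h728.DZ

open Finset Filter Topology

/-- finitely many linear families of double zeta values of the same weight are linearly independent
over slowly varying functions -/
theorem families {ι : Type} [Fintype ι] (W : ℕ) (hW : 1 ≤ W) (w0 : ℤ) (r : ι → ℕ) (a : ι → ℤ)
    (hr : ∀ i, r i ≤ W) (hinj : Function.Injective fun i => (r i, a i))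
    (h0 : ∀ i, r i = 0 → 2 ≤ a i) (h1 : ∀ i, r i = W → a i < w0)
    {V : Submodule ℝ (ℕ → ℝ)} (hV : Slow V) (c : ι → ℕ → ℝ) (hc : ∀ i, c i ∈ V)
    (e : ℕ → ℝ) (he : e ∈ V) (hne : (∃ i, c i ≠ 0) ∨ e ≠ 0) :
    ∀ᶠ x : ℕ in atTop, ∑ i, c i x * dz ((r i : ℤ) * x + a i).toNat
        (((W : ℤ) - r i) * x + (w0 - a i)).toNat + e x * zv ((W : ℤ) * x + w0).toNat ≠ 0 := by
  classical
  set x0 : ℕ := ∑ i, ((a i).natAbs + (w0 - a i).natAbs) + w0.natAbs + 3 with hx0
  have hb : ∀ i, (a i).natAbs + (w0 - a i).natAbs ≤ ∑ i, ((a i).natAbs + (w0 - a i).natAbs) :=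
    fun i => Finset.single_le_sum (f := fun i => (a i).natAbs + (w0 - a i).natAbs)
      (fun j _ => Nat.zero_le _) (Finset.mem_univ i)
  have hpos : ∀ i, ∀ x : ℕ, x0 ≤ x →
      (2 ≤ (r i : ℤ) * x + a i ∧ 2 ≤ ((W : ℤ) - r i) * x + (w0 - a i)) ∨
      (3 ≤ (r i : ℤ) * x + a i ∧ 1 ≤ ((W : ℤ) - r i) * x + (w0 - a i)) := by
    intro i x hx
    have h2 := hb i
    have hx1 : (a i).natAbs + 3 ≤ x := by omega
    have hx2 : (w0 - a i).natAbs + 3 ≤ x := by omega
    have hWz : (1 : ℤ) ≤ W := by exact_mod_cast hW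
    have hxz : (0 : ℤ) ≤ x := Int.natCast_nonneg x
    rcases Nat.eq_zero_or_pos (r i) with h3 | h3
    · left
      have h4 := h0 i h3
      rw [h3]
      push_cast
      have h5 : (x : ℤ) ≤ (W : ℤ) * x := le_mul_of_one_le_left hxz hWz
      constructor
      · omega
      · rw [sub_zero]
        omega
    · have hrz : (1 : ℤ) ≤ r i := by exact_mod_cast h3
      have h6 : (x : ℤ) ≤ (r i : ℤ) * x := le_mul_of_one_le_left hxz hrz
      rcases lt_or_eq_of_le (hr i) with h4 | h4
      · left
        have h7 : (1 : ℤ) ≤ (W : ℤ) - r i := by omega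
        have h8 : (x : ℤ) ≤ ((W : ℤ) - r i) * x := le_mul_of_one_le_left hxz h7
        constructor
        · omega
        · omega
      · right
        have h5 := h1 i h4
        rw [h4] at h6 ⊢
        rw [sub_self, zero_mul]
        constructor
        · omega
        · omega
  set C : Option ι → ℕ → ℝ := fun o => o.elim (CE W w0) (fun i => CC W (r i) (a i) (w0 - a i))
    with hC
  set F : Option ι → ℕ → ℝ := fun o => o.elim (fun x => zv ((W : ℤ) * x + w0).toNat)
    (fun i x => dz ((r i : ℤ) * x + a i).toNat (((W : ℤ) - r i) * x + (w0 - a i)).toNat) with hF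
  have hFs : ∀ o x, x0 ≤ x → HasSum (fun μ : ℕ => C o μ / (μ : ℝ) ^ x) (F o x) := by
    intro o x hx
    rcases o with _ | i
    · have h5 : (x : ℤ) ≤ (W : ℤ) * x := le_mul_of_one_le_left (Int.natCast_nonneg x)
        (by exact_mod_cast hW)
      exact CE_hasSum (W := W) (w := w0) (x := x) (v := ((W : ℤ) * x + w0).toNat)
        (by rw [Int.toNat_of_nonneg (by omega)]) (by omega)
    · have h2 := hpos i x hx
      refine CC_hasSum (W := W) (r := r i) (a := a i) (b := w0 - a i) (x := x) ?_ ?_ ?_
      · rw [Int.toNat_of_nonneg (by omega)]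
      · rw [Int.toNat_of_nonneg (by omega), Nat.cast_sub (hr i)]
      · omega
  have hli : LinearIndependent ℝ C := by
    rw [Fintype.linearIndependent_iff]
    intro g hg
    have h2 : ∀ μ : ℕ, ∑ i, g (some i) * CC W (r i) (a i) (w0 - a i) μ +
        g none * CE W w0 μ = 0 := by
      intro μ
      have h3 := congrFun hg μ
      rw [Finset.sum_apply, Fintype.sum_option] at h3
      simp only [Pi.smul_apply, smul_eq_mul, Pi.zero_apply, hC, Option.elim_none,
        Option.elim_some] at h3
      linarith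
    obtain ⟨h3, h4⟩ := coef_indep W hW w0 r a hr hinj h0 h1 (fun i => g (some i)) (g none) h2
    intro o
    rcases o with _ | i
    · exact h4
    · exact h3 i
  have hfin := indep C F x0 hFs (by
    intro o
    rcases o with _ | i
    · exact CE_zero W w0
    · exact CC_zero W _ _ _) (by
    intro o μ
    rcases o with _ | i
    · exact CE_nonneg W w0 μ
    · exact CC_nonneg W _ _ _ μ) hli hV (fun o => o.elim e c) (by
    intro o
    rcases o with _ | i
    · exact he
    · exact hc i) (by
    rcases hne with ⟨i, hi⟩ | hi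
    · exact ⟨some i, hi⟩
    · exact ⟨none, hi⟩)
  filter_upwards [hfin] with x hx
  rw [Fintype.sum_option] at hx
  simp only [hF, Option.elim_none, Option.elim_some] at hx
  intro h2
  apply hx
  linarith


end Pool.Agent.Run7.h728.DZ
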