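import Pool.Agent.Run7.h728.DZ.Basic

/-!
# The first coefficient of a relation between odd double zeta values
-/

set_option autoImplicit false

namespace Pool.Agent.Run7.h728.DZ

open Finset Filter Topology

lemma dz_hasSum_one {p q : ℕ} (h : (2 ≤ p ∧ 2 ≤ q) ∨ (3 ≤ p ∧ 1 ≤ q)) :
    HasSum (fun m : ℕ => (∑ n ∈ Finset.Ico 1 (m + 1), 1 / (n : ℝ) ^ q) / ((m + 1 : ℕ) : ℝ) ^ p)
      (dz p q) := by
  have h1 := (tm_hasSum h).prod_fiberwise (fun m => ((tm_summable h).prod_factor m).hasSum)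
  exact h1.congr_fun fun m => (tm_inner p q m).symm

lemma cube_sum (M : ℕ) (hM : 2 ≤ M) :
    ∑ n ∈ Finset.Ico 2 M, 1 / (n : ℝ) ^ 3 ≤ 1 / 4 - 1 / (2 * ((M : ℝ) - 1) * M) := by
  induction M, hM using Nat.le_induction with
  | base => norm_num
  | succ M hM ih =>
    rw [Finset.sum_Ico_succ_top hM]
    have h1 : (2 : ℝ) ≤ M := by exact_mod_cast hM
    have h0 : (0 : ℝ) < (M : ℝ) - 1 := by linarith
    have h2 : 1 / (M : ℝ) ^ 3 ≤ 1 / (((M : ℝ) - 1) * M * (M + 1)) := by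
      refine one_div_le_one_div_of_le (by positivity) ?_
      nlinarith
    have h3 : 1 / (((M : ℝ) - 1) * M * (M + 1)) =
        1 / (2 * ((M : ℝ) - 1) * M) - 1 / (2 * M * (M + 1)) := by
      field_simp
      ring
    rw [h3] at h2
    push_cast
    rw [add_sub_cancel_right]
    linarith

lemma odd_sum (J M : ℕ) (hJ : 1 ≤ J) :
    ∑ n ∈ Finset.Ico 2 M, 1 / (n : ℝ) ^ (2 * J + 1) ≤ (1 / 4) ^ J := by
  rcases Nat.lt_or_ge M 2 with hM | hM
  · rw [Finset.Ico_eq_empty (by omega), Finset.sum_empty]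
    positivity
  have h1 : ∑ n ∈ Finset.Ico 2 M, 1 / (n : ℝ) ^ (2 * J + 1) ≤
      ∑ n ∈ Finset.Ico 2 M, (1 / 4) ^ (J - 1) * (1 / (n : ℝ) ^ 3) := by
    refine Finset.sum_le_sum fun n hn => ?_
    have h2 : (2 : ℝ) ≤ n := by exact_mod_cast (Finset.mem_Ico.1 hn).1
    have h3 : (4 : ℝ) ^ (J - 1) * (n : ℝ) ^ 3 ≤ (n : ℝ) ^ (2 * J + 1) := by
      have h4 : (n : ℝ) ^ (2 * J + 1) = ((n : ℝ) ^ 2) ^ (J - 1) * (n : ℝ) ^ 3 := by
        rw [← pow_mul, ← pow_add]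
        congr 1
        omega
      rw [h4]
      refine mul_le_mul_of_nonneg_right (pow_le_pow_left₀ (by norm_num) ?_ _) (by positivity)
      nlinarith
    rw [one_div_pow, one_div_mul_one_div]
    exact one_div_le_one_div_of_le (by positivity) h3
  rw [← Finset.mul_sum] at h1
  have h2 : ∑ n ∈ Finset.Ico 2 M, 1 / (n : ℝ) ^ 3 ≤ 1 / 4 := by
    have h3 := cube_sum M hM
    have h4 : (2 : ℝ) ≤ M := by exact_mod_cast hM
    have h0 : (0 : ℝ) < (M : ℝ) - 1 := by linarith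
    have h5 : (0 : ℝ) < 1 / (2 * ((M : ℝ) - 1) * M) := by positivity
    linarith
  calc ∑ n ∈ Finset.Ico 2 M, 1 / (n : ℝ) ^ (2 * J + 1) ≤
      (1 / 4) ^ (J - 1) * ∑ n ∈ Finset.Ico 2 M, 1 / (n : ℝ) ^ 3 := h1
    _ ≤ (1 / 4) ^ (J - 1) * (1 / 4) := mul_le_mul_of_nonneg_left h2 (by positivity)
    _ = (1 / 4) ^ J := by
      rw [← pow_succ]
      congr 1
      omega

lemma w_total (β : ℝ) (h1 : 1 ≤ β) (h4 : β < 4) (J : ℕ) (hJ : 1 ≤ J) :
    ∑ i ∈ Finset.range J, (4 - β) * β ^ i - 1 ≤ 1 / 2 * 4 ^ J := by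
  induction J, hJ using Nat.le_induction with
  | base =>
    simp
    linarith
  | succ J hJ ih =>
    rw [Finset.sum_range_succ]
    obtain ⟨t, rfl⟩ : ∃ t, J = t + 1 := ⟨J - 1, by omega⟩
    have h2 : (4 - β) * β ≤ 4 := by nlinarith [sq_nonneg (β - 2)]
    have h3 : β ^ t ≤ 4 ^ t := pow_le_pow_left₀ (by linarith) h4.le _
    have h5 : (4 - β) * β ^ (t + 1) ≤ 4 * 4 ^ t := by
      rw [pow_succ, mul_comm (β ^ t), ← mul_assoc]
      exact mul_le_mul h2 h3 (by positivity) (by norm_num)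
    have h6 : (0 : ℝ) < 4 ^ t := by positivity
    have h7 : (4 : ℝ) ^ (t + 1) = 4 * 4 ^ t := by ring
    have h8 : (4 : ℝ) ^ (t + 1 + 1) = 16 * 4 ^ t := by ring
    rw [h7] at ih
    rw [h8]
    linarith

lemma w_two (β : ℝ) (J : ℕ) :
    ∑ i ∈ Finset.range J, (4 - β) * β ^ i * (1 / 4) ^ (i + 1) = 1 - (β / 4) ^ J := by
  induction J with
  | zero => simp
  | succ J ih =>
    have h0 : (4 : ℝ) ^ J ≠ 0 := by positivity
    have h2 : (1 / 4 : ℝ) ^ (J + 1) = 1 / (4 ^ J * 4) := by rw [one_div_pow, pow_succ]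
    have h3 : (β / 4) ^ (J + 1) = β ^ J * β / (4 ^ J * 4) := by
      rw [div_pow, pow_succ, pow_succ]
    rw [Finset.sum_range_succ, ih, h2, h3, div_pow]
    field_simp
    ring

lemma w_three (β : ℝ) (h1 : 1 ≤ β) (h4 : β < 4) (x : ℝ) (hx0 : 0 ≤ x) (hx : x ≤ 1 / 9) (J : ℕ) :
    ∑ i ∈ Finset.range J, (4 - β) * β ^ i * x ^ (i + 1) ≤ 3 / 8 := by
  have h2 : ∀ J : ℕ, (1 - β * x) * ∑ i ∈ Finset.range J, (4 - β) * β ^ i * x ^ (i + 1) =
      (4 - β) * x * (1 - (β * x) ^ J) := by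
    intro J
    induction J with
    | zero => simp
    | succ J ih =>
      rw [Finset.sum_range_succ, mul_add, ih, pow_succ, mul_pow]
      ring
  have h3 := h2 J
  have h5 : 0 ≤ (β * x) ^ J := by positivity
  have h6 : β * x ≤ 4 / 9 := by nlinarith
  have h7 : (0 : ℝ) < 1 - β * x := by linarith
  have h8 : (1 - β * x) * ∑ i ∈ Finset.range J, (4 - β) * β ^ i * x ^ (i + 1) ≤
      (1 - β * x) * (3 / 8) := by
    rw [h3]
    have h9 : (4 - β) * x * (1 - (β * x) ^ J) ≤ (4 - β) * x := by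
      have : 0 ≤ (4 - β) * x * (β * x) ^ J := by
        have : 0 ≤ 4 - β := by linarith
        positivity
      linarith
    nlinarith
  exact le_of_mul_le_mul_left h8 h7

/-- the terms with the larger variable `M ≥ 3` -/
lemma inner_pos (β : ℝ) (h1 : 1 ≤ β) (h4 : β < 4) (J : ℕ) (hJ : 1 ≤ J) (M : ℕ) (hM : 3 ≤ M) :
    0 < ∑ n ∈ Finset.Ico 1 M, 1 / (n : ℝ) ^ (2 * J + 1) *
      (1 - ∑ i ∈ Finset.range J, (4 - β) * β ^ i * (((n : ℝ) / M) ^ 2) ^ (i + 1)) := by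
  have hM0 : (3 : ℝ) ≤ M := by exact_mod_cast hM
  rw [Finset.sum_eq_sum_Ico_succ_bot (by omega)]
  have hw : ∀ i, 0 ≤ (4 - β) * β ^ i := fun i => by
    have : 0 ≤ 4 - β := by linarith
    positivity
  have e1 : 5 / 8 ≤ 1 / ((1 : ℕ) : ℝ) ^ (2 * J + 1) *
      (1 - ∑ i ∈ Finset.range J, (4 - β) * β ^ i * ((((1 : ℕ) : ℝ) / M) ^ 2) ^ (i + 1)) := by
    have h2 := w_three β h1 h4 ((((1 : ℕ) : ℝ) / M) ^ 2) (by positivity) (by
      rw [Nat.cast_one, div_pow, one_pow]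
      refine one_div_le_one_div_of_le (by norm_num) ?_
      nlinarith) J
    rw [Nat.cast_one] at h2 ⊢
    rw [one_pow, div_one, one_mul]
    linarith
  have e2 : -(1 / 2 : ℝ) ≤ ∑ n ∈ Finset.Ico (1 + 1) M, 1 / (n : ℝ) ^ (2 * J + 1) *
      (1 - ∑ i ∈ Finset.range J, (4 - β) * β ^ i * (((n : ℝ) / M) ^ 2) ^ (i + 1)) := by
    have h2 : ∀ n ∈ Finset.Ico (1 + 1) M, -(1 / 2 * 4 ^ J) * (1 / (n : ℝ) ^ (2 * J + 1)) ≤
        1 / (n : ℝ) ^ (2 * J + 1) *
      (1 - ∑ i ∈ Finset.range J, (4 - β) * β ^ i * (((n : ℝ) / M) ^ 2) ^ (i + 1)) := by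
      intro n hn
      have h3 := Finset.mem_Ico.1 hn
      have hn0 : (2 : ℝ) ≤ n := by exact_mod_cast h3.1
      have hnM : (n : ℝ) ≤ M := by exact_mod_cast h3.2.le
      have h5 : ((n : ℝ) / M) ^ 2 ≤ 1 := by
        rw [div_pow]
        refine div_le_one_of_le₀ (pow_le_pow_left₀ (by linarith) hnM _) (by positivity)
      have h6 : ∑ i ∈ Finset.range J, (4 - β) * β ^ i * (((n : ℝ) / M) ^ 2) ^ (i + 1) ≤
          ∑ i ∈ Finset.range J, (4 - β) * β ^ i := by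
        refine Finset.sum_le_sum fun i _ => ?_
        exact mul_le_of_le_one_right (hw i) (pow_le_one₀ (by positivity) h5)
      have h7 := w_total β h1 h4 J hJ
      rw [mul_comm]
      refine mul_le_mul_of_nonneg_left ?_ (by positivity)
      linarith
    refine le_trans ?_ (Finset.sum_le_sum h2)
    rw [← Finset.mul_sum]
    have h3 := odd_sum J M hJ
    have h5 : (0 : ℝ) < 4 ^ J := by positivity
    have h6 : (1 / 2 * 4 ^ J) * ∑ n ∈ Finset.Ico (1 + 1) M, 1 / (n : ℝ) ^ (2 * J + 1) ≤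
        (1 / 2 * 4 ^ J) * (1 / 4) ^ J := mul_le_mul_of_nonneg_left h3 (by positivity)
    have h7 : (1 / 2 * 4 ^ J) * (1 / 4 : ℝ) ^ J = 1 / 2 := by
      rw [one_div_pow]
      field_simp
    linarith
  linarith

/-- **the main inequality** -/
theorem main_ineq (β : ℝ) (h1 : 1 ≤ β) (h4 : β < 4) (J s : ℕ) (hs : 3 ≤ s) :
    ∑ i ∈ Finset.range J, (4 - β) * β ^ i * dz (s + 2 * (i + 1)) (2 * (J - (i + 1)) + 1) <
      dz s (2 * J + 1) := by
  have hs1 := dz_hasSum_one (p := s) (q := 2 * J + 1) (Or.inr ⟨hs, by omega⟩)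
  have hs2 : HasSum (fun m : ℕ => ∑ i ∈ Finset.range J, (4 - β) * β ^ i *
      ((∑ n ∈ Finset.Ico 1 (m + 1), 1 / (n : ℝ) ^ (2 * (J - (i + 1)) + 1)) /
        ((m + 1 : ℕ) : ℝ) ^ (s + 2 * (i + 1))))
      (∑ i ∈ Finset.range J, (4 - β) * β ^ i * dz (s + 2 * (i + 1)) (2 * (J - (i + 1)) + 1)) :=
    hasSum_sum fun i _ => (dz_hasSum_one (Or.inr ⟨by omega, by omega⟩)).mul_left _
  have hs3 := hs1.sub hs2
  have key : ∀ m : ℕ, (∑ n ∈ Finset.Ico 1 (m + 1), 1 / (n : ℝ) ^ (2 * J + 1)) /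
      ((m + 1 : ℕ) : ℝ) ^ s - ∑ i ∈ Finset.range J, (4 - β) * β ^ i *
      ((∑ n ∈ Finset.Ico 1 (m + 1), 1 / (n : ℝ) ^ (2 * (J - (i + 1)) + 1)) /
        ((m + 1 : ℕ) : ℝ) ^ (s + 2 * (i + 1))) =
      (∑ n ∈ Finset.Ico 1 (m + 1), 1 / (n : ℝ) ^ (2 * J + 1) *
      (1 - ∑ i ∈ Finset.range J, (4 - β) * β ^ i * (((n : ℝ) / ((m + 1 : ℕ) : ℝ)) ^ 2) ^ (i + 1))) /
        ((m + 1 : ℕ) : ℝ) ^ s := by
    intro m
    have hM : ((m + 1 : ℕ) : ℝ) ≠ 0 := by positivity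
    have e1 : ∀ i ∈ Finset.range J, (4 - β) * β ^ i *
      ((∑ n ∈ Finset.Ico 1 (m + 1), 1 / (n : ℝ) ^ (2 * (J - (i + 1)) + 1)) /
        ((m + 1 : ℕ) : ℝ) ^ (s + 2 * (i + 1))) = (∑ n ∈ Finset.Ico 1 (m + 1),
        1 / (n : ℝ) ^ (2 * J + 1) * ((4 - β) * β ^ i *
          (((n : ℝ) / ((m + 1 : ℕ) : ℝ)) ^ 2) ^ (i + 1))) / ((m + 1 : ℕ) : ℝ) ^ s := by
      intro i hi
      have hi' := Finset.mem_range.1 hi
      rw [pow_add, Finset.sum_div, Finset.sum_div, Finset.mul_sum]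
      refine Finset.sum_congr rfl fun n hn => ?_
      have hn0 : (n : ℝ) ≠ 0 := by
        have := (Finset.mem_Ico.1 hn).1
        have h5 : 0 < n := by omega
        exact_mod_cast h5.ne'
      have h6 : (n : ℝ) ^ (2 * J + 1) = (n : ℝ) ^ (2 * (J - (i + 1)) + 1) * (n : ℝ) ^ (2 * (i + 1)) := by
        rw [← pow_add]
        congr 1
        omega
      rw [h6, ← pow_mul, div_pow]
      field_simp
    rw [Finset.sum_congr rfl e1, ← Finset.sum_div, ← sub_div, Finset.sum_comm,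
      ← Finset.sum_sub_distrib]
    congr 1
    refine Finset.sum_congr rfl fun n _ => ?_
    rw [mul_sub, mul_one, Finset.mul_sum]
  have hnn : ∀ m : ℕ, 0 ≤ (∑ n ∈ Finset.Ico 1 (m + 1), 1 / (n : ℝ) ^ (2 * J + 1) *
      (1 - ∑ i ∈ Finset.range J, (4 - β) * β ^ i * (((n : ℝ) / ((m + 1 : ℕ) : ℝ)) ^ 2) ^ (i + 1))) /
        ((m + 1 : ℕ) : ℝ) ^ s ∧ (m = 1 → 0 < (∑ n ∈ Finset.Ico 1 (m + 1),
        1 / (n : ℝ) ^ (2 * J + 1) *
      (1 - ∑ i ∈ Finset.range J, (4 - β) * β ^ i * (((n : ℝ) / ((m + 1 : ℕ) : ℝ)) ^ 2) ^ (i + 1))) /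
        ((m + 1 : ℕ) : ℝ) ^ s) := by
    intro m
    rcases Nat.lt_or_ge m 2 with hm | hm
    · rcases Nat.eq_zero_or_pos m with h0 | h0
      · subst h0
        refine ⟨?_, fun h => absurd h (by norm_num)⟩
        simp
      · obtain rfl : m = 1 := by omega
        have e1 : 0 < (∑ n ∈ Finset.Ico (1 : ℕ) (1 + 1),
            1 / (n : ℝ) ^ (2 * J + 1) *
          (1 - ∑ i ∈ Finset.range J, (4 - β) * β ^ i *
            (((n : ℝ) / ((1 + 1 : ℕ) : ℝ)) ^ 2) ^ (i + 1))) / ((1 + 1 : ℕ) : ℝ) ^ s := by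
          refine div_pos ?_ (by positivity)
          rw [Nat.Ico_succ_singleton, Finset.sum_singleton]
          have h2 := w_two β J
          have h3 : (((1 : ℕ) : ℝ) / ((1 + 1 : ℕ) : ℝ)) ^ 2 = 1 / 4 := by norm_num
          rw [h3, h2, Nat.cast_one, one_pow, div_one, one_mul]
          have : 0 < (β / 4) ^ J := by positivity
          linarith
        exact ⟨e1.le, fun _ => e1⟩
    · refine ⟨?_, fun h => by omega⟩
      refine div_nonneg ?_ (by positivity)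
      rcases Nat.eq_zero_or_pos J with h0 | h0
      · subst h0
        refine Finset.sum_nonneg fun n _ => ?_
        rw [Finset.range_zero, Finset.sum_empty, sub_zero, mul_one]
        positivity
      · exact (inner_pos β h1 h4 J h0 (m + 1) (by omega)).le
  have hs4 := hs3.congr_fun fun m => (key m).symm
  have h5 := le_hasSum hs4 1 (fun m _ => (hnn m).1)
  have h6 := (hnn 1).2 rfl
  linarith

/-- **the first coefficient of a relation** -/
theorem first_coef (n : ℕ) (c : ℕ → ℝ) (β : ℝ) (h1 : 1 ≤ β) (h4 : β < 4)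
    (hrel : ∑ a ∈ Finset.range n, c a * dz (2 * a + 3) (2 * (n - a) - 1) = 0) (a : ℕ) (ha : a < n)
    (hc : c a ≠ 0) (hmin : ∀ b, b < a → c b = 0) :
    ∃ j, a + j + 1 < n ∧ (4 - β) * β ^ j * |c a| < |c (a + j + 1)| := by
  by_contra hcon
  push Not at hcon
  set J := n - a - 1 with hJ
  have h2 := main_ineq β h1 h4 J (2 * a + 3) (by omega)
  have hpos : 0 < |c a| := abs_pos.2 hc
  have e1 : ∑ b ∈ Finset.range n, c b * dz (2 * b + 3) (2 * (n - b) - 1) =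
      c a * dz (2 * a + 3) (2 * J + 1) +
        ∑ i ∈ Finset.range J, c (a + i + 1) *
          dz (2 * a + 3 + 2 * (i + 1)) (2 * (J - (i + 1)) + 1) := by
    obtain ⟨m, hm⟩ : ∃ m, n = a + (m + 1) := ⟨n - a - 1, by omega⟩
    have hJm : J = m := by omega
    rw [hJm, hm, Finset.sum_range_add, Finset.sum_eq_zero (fun b hb => by
      rw [hmin b (Finset.mem_range.1 hb), zero_mul]), zero_add, Finset.sum_range_succ']
    rw [add_comm]
    congr 1
    · rw [Nat.add_zero]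
      congr 2
      omega
    · refine Finset.sum_congr rfl fun i hi => ?_
      have hi' := Finset.mem_range.1 hi
      rw [← add_assoc]
      congr 2 <;> omega
  rw [e1] at hrel
  have e2 : c a * dz (2 * a + 3) (2 * J + 1) = -∑ i ∈ Finset.range J, c (a + i + 1) *
          dz (2 * a + 3 + 2 * (i + 1)) (2 * (J - (i + 1)) + 1) := by linarith
  have hd : ∀ i, 0 ≤ dz (2 * a + 3 + 2 * (i + 1)) (2 * (J - (i + 1)) + 1) := fun i =>
    (tm_hasSum (Or.inr ⟨by omega, by omega⟩)).nonneg (tm_nonneg _ _)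
  have hd0 : 0 ≤ dz (2 * a + 3) (2 * J + 1) :=
    (tm_hasSum (Or.inr ⟨by omega, by omega⟩)).nonneg (tm_nonneg _ _)
  have e3 : |c a| * dz (2 * a + 3) (2 * J + 1) ≤ |c a| * ∑ i ∈ Finset.range J,
      (4 - β) * β ^ i * dz (2 * a + 3 + 2 * (i + 1)) (2 * (J - (i + 1)) + 1) := by
    calc |c a| * dz (2 * a + 3) (2 * J + 1) = |c a * dz (2 * a + 3) (2 * J + 1)| := by
          rw [abs_mul, abs_of_nonneg hd0]
      _ = |∑ i ∈ Finset.range J, c (a + i + 1) *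
          dz (2 * a + 3 + 2 * (i + 1)) (2 * (J - (i + 1)) + 1)| := by rw [e2, abs_neg]
      _ ≤ ∑ i ∈ Finset.range J, |c (a + i + 1) *
          dz (2 * a + 3 + 2 * (i + 1)) (2 * (J - (i + 1)) + 1)| := Finset.abs_sum_le_sum_abs _ _
      _ ≤ ∑ i ∈ Finset.range J, |c a| * ((4 - β) * β ^ i *
          dz (2 * a + 3 + 2 * (i + 1)) (2 * (J - (i + 1)) + 1)) := by
        refine Finset.sum_le_sum fun i hi => ?_
        have hi' := Finset.mem_range.1 hi
        rw [abs_mul, abs_of_nonneg (hd i)]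
        have h7 := hcon i (by omega)
        calc |c (a + i + 1)| * dz (2 * a + 3 + 2 * (i + 1)) (2 * (J - (i + 1)) + 1) ≤
            ((4 - β) * β ^ i * |c a|) * dz (2 * a + 3 + 2 * (i + 1)) (2 * (J - (i + 1)) + 1) :=
              mul_le_mul_of_nonneg_right h7 (hd i)
          _ = _ := by ring
      _ = _ := by rw [Finset.mul_sum]
  have e4 := lt_of_le_of_lt e3 (mul_lt_mul_of_pos_left h2 hpos)
  exact lt_irrefl _ e4

end Pool.Agent.Run7.h728.DZ
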