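import Pool.Agent.Run7.h728.DZ.Est
import Pool.Agent.Results.MP_9206b6_nt.AllWeights

/-!
# The positions of the terms of a sparse relation
-/

set_option autoImplicit false

namespace Pool.Agent.Run7.h728.DZ

open Finset Filter Topology

lemma aw (N H : ℕ) : ∃ B : ℝ, 1 < B ∧ ∃ n0 : ℕ, ∀ n k : ℕ, n0 ≤ n → n < k → ∀ S : Finset ℕ,
    S.card ≤ N → n ∈ S → (∀ s ∈ S, n ≤ s ∧ s < k) → ∀ c : ℕ → ℤ, c n ≠ 0 → (∀ s, |c s| ≤ H) →
    (B ^ n)⁻¹ < |∑ s ∈ S, (c s : ℝ) * dz s (k - s)| := by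
  have hli : LinearIndependent ℚ (fun _ : Fin 1 => (1 : ℝ)) := by
    rw [Fintype.linearIndependent_iff]
    intro g hg i
    rw [Fin.sum_univ_one, Rat.smul_one_eq_cast] at hg
    have : g 0 = 0 := by exact_mod_cast hg
    rw [Subsingleton.elim i 0, this]
  obtain ⟨B, hB, n0, h⟩ := Pool.Agent.Results.MP_9206b6_nt.AllWeights.result (fun _ : Fin 1 => (1 : ℝ))
    (fun _ => isAlgebraic_one) hli N ((H : ℝ) + 1)
  refine ⟨B, hB, max n0 1, fun n k hn hnk S hS hnS hb c hc hcH => ?_⟩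
  have hC : (H : ℝ) ≤ ((H : ℝ) + 1) ^ n := by
    calc (H : ℝ) ≤ (H : ℝ) + 1 := by linarith
      _ = ((H : ℝ) + 1) ^ 1 := (pow_one _).symm
      _ ≤ ((H : ℝ) + 1) ^ n := pow_le_pow_right₀ (by linarith [Nat.cast_nonneg (α := ℝ) H])
          (by omega)
  have h1 := h n k (by omega) hnk S hS hnS hb (fun s _ => c s) (fun _ => 0) (by
    intro h2
    exact hc (congrFun h2 0)) (by
    intro s _ _
    have h2 := hcH s
    have h3 : |(c s : ℝ)| ≤ H := by exact_mod_cast h2
    exact h3.trans hC) (by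
    intro _
    rw [Int.cast_zero, abs_zero]
    positivity)
  simp only [Finset.univ_unique, Finset.sum_singleton, one_mul, Int.cast_zero, zero_mul,
    add_zero] at h1
  exact h1

lemma exists_gap (N : ℕ) (Pf : ℕ → ℕ) (hP : Monotone Pf) (S : Finset ℕ) (hS : S.card ≤ N) :
    ∃ i, i ≤ N ∧ ∀ s ∈ S, s < Pf i ∨ Pf (i + 1) ≤ s := by
  by_contra hcon
  push Not at hcon
  have h1 : ∀ i, ∃ s, i ≤ N → s ∈ S ∧ Pf i ≤ s ∧ s < Pf (i + 1) := by
    intro i
    by_cases hi : i ≤ N
    · obtain ⟨s, hs, h2, h3⟩ := hcon i hi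
      exact ⟨s, fun _ => ⟨hs, h2, h3⟩⟩
    · exact ⟨0, fun h => absurd h hi⟩
  choose g hg using h1
  have h2 : (Finset.range (N + 1)).card ≤ S.card := by
    refine Finset.card_le_card_of_injOn g ?_ ?_
    · intro i hi
      exact (hg i (Nat.lt_succ_iff.1 (by simpa using hi))).1
    · have key : ∀ i j, i ≤ N → j ≤ N → i < j → g i < g j := by
        intro i j hi hj hij
        have h3 := (hg i hi).2.2
        have h4 := (hg j hj).2.1
        have h5 := hP (show i + 1 ≤ j from hij)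
        omega
      intro i hi j hj hij
      have hi' : i ≤ N := Nat.lt_succ_iff.1 (by simpa using hi)
      have hj' : j ≤ N := Nat.lt_succ_iff.1 (by simpa using hj)
      rcases lt_trichotomy i j with h | h | h
      · exact absurd hij (key i j hi' hj' h).ne
      · exact h
      · exact absurd hij.symm (key j i hj' hi' h).ne
  rw [Finset.card_range] at h2
  omega

lemma sum_abs_le {S : Finset ℕ} {N H : ℕ} (hS : S.card ≤ N) {c : ℕ → ℤ} (hc : ∀ s, |c s| ≤ H)
    {g : ℕ → ℝ} {b : ℝ} (hb : 0 ≤ b) (hg : ∀ s ∈ S, |g s| ≤ b) :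
    |∑ s ∈ S, (c s : ℝ) * g s| ≤ N * (H * b) := by
  calc |∑ s ∈ S, (c s : ℝ) * g s| ≤ ∑ s ∈ S, |(c s : ℝ) * g s| := Finset.abs_sum_le_sum_abs _ _
    _ ≤ ∑ s ∈ S, (H : ℝ) * b := by
      refine Finset.sum_le_sum fun s hs => ?_
      rw [abs_mul]
      have h3 : |(c s : ℝ)| ≤ H := by exact_mod_cast hc s
      exact mul_le_mul h3 (hg s hs) (abs_nonneg _) (Nat.cast_nonneg _)
    _ = S.card * ((H : ℝ) * b) := by rw [Finset.sum_const, nsmul_eq_mul]
    _ ≤ N * (H * b) := by
      refine mul_le_mul_of_nonneg_right (by exact_mod_cast hS) (by positivity)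

/-- the conclusion about the relation -/
def Concl (P Q : ℕ) (η : ℝ) (k : ℕ) (S : Finset ℕ) (c : ℕ → ℤ) (d : ℤ) : Prop :=
  (∃ s ∈ S, s ≤ P) ∧ (d = 0 → 2 ≤ (S.filter (· ≤ P)).card) ∧
    ∑ s ∈ S.filter (· ≤ P), (c s : ℝ) * (zv s - 1) + d = 0 ∧
    (∀ s ∈ S, s ≤ P ∨ η * k ≤ s) ∧ 2 ≤ (S.filter (fun s : ℕ => η * k ≤ (s : ℝ))).card ∧
    (∃ s ∈ S, η * k ≤ s ∧ s + Q ≤ k)

theorem gap_core (N H Q : ℕ) : ∃ (P k0 : ℕ) (η : ℝ), 0 < η ∧ ∀ k : ℕ, k0 ≤ k →
    ∀ (S : Finset ℕ) (c : ℕ → ℤ) (d : ℤ), S.Nonempty → S.card ≤ N →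
    (∀ s ∈ S, 2 ≤ s ∧ s < k ∧ c s ≠ 0) → (∀ s, s ∉ S → c s = 0) → (∀ s, |c s| ≤ H) → |d| ≤ H →
    ∑ s ∈ S, (c s : ℝ) * dz s (k - s) + d * zv k = 0 → Concl P Q η k S c d := by
  classical
  obtain ⟨B, hB, n0, haw⟩ := aw N H
  choose δ hδ0 hδ using fun J => kap_gap J H
  have hlim : Tendsto (fun t : ℕ => (1 / 2 : ℝ) ^ t) atTop (𝓝 0) :=
    tendsto_pow_atTop_nhds_zero_of_lt_one (by norm_num) (by norm_num)
  have hf : ∀ J : ℕ, ∃ f : ℕ, J < f ∧ ((N : ℝ) * (H * (8 * dz 3 1 * (1 / 2) ^ f)) < δ J / 2) := by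
    intro J
    have h1 : Tendsto (fun t : ℕ => (N : ℝ) * (H * (8 * dz 3 1 * (1 / 2) ^ t))) atTop (𝓝 0) := by
      have h2 := ((hlim.const_mul (8 * dz 3 1)).const_mul (H : ℝ)).const_mul (N : ℝ)
      simpa using h2
    obtain ⟨f, h3, h4⟩ := ((h1.eventually (gt_mem_nhds (half_pos (hδ0 J)))).and
      (eventually_gt_atTop J)).exists
    exact ⟨f, h4, h3⟩
  choose f hfJ hfδ using hf
  set Pf : ℕ → ℕ := fun i => Nat.rec (max n0 3) (fun _ J => f J) i with hPf
  have hPs : ∀ i, Pf (i + 1) = f (Pf i) := fun i => rfl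
  have hP0 : Pf 0 = max n0 3 := rfl
  have hmono : Monotone Pf := monotone_nat_of_le_succ fun i => by
    rw [hPs]
    exact (hfJ _).le
  set P : ℕ := Pf N with hPdef
  have hlogB : 0 < Real.log B := Real.log_pos hB
  have hlog2 : 0 < Real.log 2 := Real.log_pos (by norm_num)
  set η : ℝ := Real.log 2 / (2 * Real.log B) with hη
  have hη0 : 0 < η := by positivity
  set D : ℝ := N * (H * (KK * 2 ^ P)) + H * (4 * zv 2) with hD
  have hKK := KK_pos
  have hz2 := zv_pos (le_refl 2)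
  have hD0 : 0 ≤ D := by positivity
  have E1 : ∀ᶠ k : ℕ in atTop, ∀ i ∈ Finset.range (N + 1), D * (1 / 2) ^ k < δ (Pf i) / 2 := by
    rw [Filter.eventually_all_finset]
    intro i _
    have h1 : Tendsto (fun t : ℕ => D * (1 / 2 : ℝ) ^ t) atTop (𝓝 0) := by
      simpa using hlim.const_mul D
    exact h1.eventually (gt_mem_nhds (half_pos (hδ0 _)))
  obtain ⟨Q0, hQ0⟩ : ∃ Q0 : ℕ, D < 2 ^ Q0 := pow_unbounded_of_one_lt D (by norm_num)
  set J2 : ℕ := P + 1 + Q + Q0 + 1 with hJ2
  have E2 := ext_ne J2 H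
  have E3 : ∀ᶠ k : ℕ in atTop, (P : ℝ) < η * k := by
    have h1 : Tendsto (fun k : ℕ => η * (k : ℝ)) atTop atTop :=
      tendsto_natCast_atTop_atTop.const_mul_atTop hη0
    exact h1.eventually_gt_atTop _
  have E4 : ∀ᶠ k : ℕ in atTop, D ≤ Real.exp (Real.log 2 / 2 * k) := by
    have h1 : Tendsto (fun k : ℕ => Real.exp (Real.log 2 / 2 * (k : ℝ))) atTop atTop :=
      Real.tendsto_exp_atTop.comp
        (tendsto_natCast_atTop_atTop.const_mul_atTop (by positivity))
    exact h1.eventually_ge_atTop _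
  obtain ⟨k0, hk0⟩ := Filter.eventually_atTop.1
    (E1.and (E2.and (E3.and (E4.and (eventually_ge_atTop (2 * J2 + 3))))))
  refine ⟨P, k0, η, hη0, fun k hk S c d hSne hSN hS hcS hcH hd hrel => ?_⟩
  obtain ⟨F1, F2, F3, F4, F5⟩ := hk0 k hk
  obtain ⟨i, hi, hgap⟩ := exists_gap N Pf hmono S hSN
  have hiP : Pf i ≤ P := hmono hi
  have h3i : 3 ≤ Pf (i + 1) := by
    have := hmono (Nat.zero_le (i + 1))
    rw [hP0] at this
    omega
  have hn0i : n0 ≤ Pf (i + 1) := by
    have := hmono (Nat.zero_le (i + 1))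
    rw [hP0] at this
    omega
  set J : ℕ := Pf i with hJ
  set A : Finset ℕ := S.filter (· < J) with hA
  set O : Finset ℕ := S.filter (fun s => ¬ s < J) with hO
  have hAN : A.card ≤ N := (Finset.card_le_card (Finset.filter_subset _ _)).trans hSN
  have hON : O.card ≤ N := (Finset.card_le_card (Finset.filter_subset _ _)).trans hSN
  have hOs : ∀ s ∈ O, s ∈ S ∧ Pf (i + 1) ≤ s := by
    intro s hs
    rw [hO, Finset.mem_filter] at hs
    exact ⟨hs.1, (hgap s hs.1).resolve_left hs.2⟩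
  have hAs : ∀ s ∈ A, s ∈ S ∧ s < J := fun s hs => Finset.mem_filter.1 hs
  have hsplit : ∀ g : ℕ → ℝ, ∑ s ∈ S, g s = ∑ s ∈ A, g s + ∑ s ∈ O, g s := fun g =>
    (Finset.sum_filter_add_sum_filter_not S (· < J) g).symm
  have hkap : kap J c d = ∑ s ∈ A, (c s : ℝ) * (zv s - 1) + d := by
    unfold kap
    congr 1
    symm
    apply Finset.sum_subset
    · intro s hs
      have h1 := hAs s hs
      exact Finset.mem_Ico.2 ⟨(hS s h1.1).1, h1.2⟩
    · intro s hs hsA
      have h1 : s ∉ S := fun h => hsA (Finset.mem_filter.2 ⟨h, (Finset.mem_Ico.1 hs).2⟩)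
      rw [hcS s h1]
      simp
  set e : ℝ := ∑ s ∈ A, (c s : ℝ) * (dz s (k - s) - (zv s - 1)) + d * (zv k - 1) with he
  set o : ℝ := ∑ s ∈ O, (c s : ℝ) * dz s (k - s) with ho
  have hrel2 : kap J c d + e + o = 0 := by
    rw [hsplit] at hrel
    rw [hkap, he, ← hrel]
    simp only [mul_sub, Finset.sum_sub_distrib]
    ring
  have hle : |e| ≤ D * (1 / 2) ^ k := by
    have h1 : |∑ s ∈ A, (c s : ℝ) * (dz s (k - s) - (zv s - 1))| ≤
        N * (H * (KK * 2 ^ P * (1 / 2) ^ k)) := by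
      refine sum_abs_le hAN hcH (by positivity) fun s hs => ?_
      have h2 := hAs s hs
      have h3 := dz_near (s := s) (t := k - s) (hS s h2.1).1 (by omega)
      refine h3.trans ?_
      rw [mul_assoc]
      refine mul_le_mul_of_nonneg_left ?_ hKK.le
      have h4 : (1 / 2 : ℝ) ^ k = (1 / 2) ^ s * (1 / 2) ^ (k - s) := by
        rw [← pow_add]
        congr 1
        omega
      have h5 : (2 : ℝ) ^ s * (1 / 2) ^ s = 1 := by
        rw [← mul_pow]
        norm_num
      calc (1 / 2 : ℝ) ^ (k - s) = (2 ^ s * (1 / 2) ^ s) * (1 / 2) ^ (k - s) := by rw [h5, one_mul]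
        _ = 2 ^ s * (1 / 2) ^ k := by rw [h4]; ring
        _ ≤ 2 ^ P * (1 / 2) ^ k := mul_le_mul_of_nonneg_right
          (pow_le_pow_right₀ (by norm_num) (by omega)) (by positivity)
    have h2 : |(d : ℝ) * (zv k - 1)| ≤ H * (4 * zv 2 * (1 / 2) ^ k) := by
      rw [abs_mul]
      have h3 : |(d : ℝ)| ≤ H := by exact_mod_cast hd
      have h4 := zv_ge (w := k) (by omega)
      have h5 := zv_le (w := k) (by omega)
      rw [abs_of_nonneg (show (0 : ℝ) ≤ zv k - 1 by linarith)]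
      exact mul_le_mul h3 h5 (by linarith) (Nat.cast_nonneg _)
    calc |e| ≤ |∑ s ∈ A, (c s : ℝ) * (dz s (k - s) - (zv s - 1))| + |(d : ℝ) * (zv k - 1)| :=
          abs_add_le _ _
      _ ≤ N * (H * (KK * 2 ^ P * (1 / 2) ^ k)) + H * (4 * zv 2 * (1 / 2) ^ k) := add_le_add h1 h2
      _ = D * (1 / 2) ^ k := by rw [hD]; ring
  have hlo : |o| < δ J / 2 := by
    refine lt_of_le_of_lt ?_ (hfδ J)
    refine sum_abs_le hON hcH (by
      have := dz_nonneg (p := 3) (q := 1) (Or.inr ⟨le_rfl, le_rfl⟩)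
      positivity) fun s hs => ?_
    obtain ⟨h1, h2⟩ := hOs s hs
    have h3 := hS s h1
    rw [abs_of_nonneg (dz_nonneg (Or.inr ⟨by omega, by omega⟩))]
    refine (dz_le (by omega) (by omega)).trans ?_
    refine mul_le_mul_of_nonneg_left ?_ (by
      have := dz_nonneg (p := 3) (q := 1) (Or.inr ⟨le_rfl, le_rfl⟩)
      positivity)
    exact pow_le_pow_of_le_one (by norm_num) (by norm_num) h2
  have hk1 : kap J c d = 0 := by
    apply hδ J c d hcH hd
    have h1 := F1 i (by rw [Finset.mem_range]; omega)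
    have h2 : kap J c d = -e - o := by linarith
    rw [h2]
    calc |-e - o| ≤ |-e| + |o| := abs_sub _ _
      _ = |e| + |o| := by rw [abs_neg]
      _ < δ J := by linarith
  have hOlow : ∀ n ∈ O, (∀ s ∈ O, n ≤ s) → (B ^ n)⁻¹ < |o| := by
    intro n hn hmin
    obtain ⟨h1, h2⟩ := hOs n hn
    exact haw n k (by omega) (hS n h1).2.1 O hON hn
      (fun s hs => ⟨hmin s hs, (hS s (hOs s hs).1).2.1⟩) c (hS n h1).2.2 hcH
  have hOη : ∀ s ∈ O, η * k ≤ s := by
    intro s hs
    have hne : O.Nonempty := ⟨s, hs⟩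
    have hmem := O.min'_mem hne
    have hmin : ∀ t ∈ O, O.min' hne ≤ t := fun t ht => O.min'_le t ht
    set n := O.min' hne with hn
    have h1 := hOlow n hmem hmin
    have h2 : o = -e := by
      rw [hk1] at hrel2
      linarith
    rw [h2, abs_neg] at h1
    have h3 : (B ^ n)⁻¹ < Real.exp (Real.log 2 / 2 * k) * (1 / 2) ^ k :=
      h1.trans_le (hle.trans (mul_le_mul_of_nonneg_right F4 (by positivity)))
    have h4 : (1 / 2 : ℝ) ^ k = Real.exp (-(Real.log 2 * k)) := by
      rw [Real.exp_neg, mul_comm, Real.exp_nat_mul, Real.exp_log (by norm_num), one_div, inv_pow]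
    have h5 : (B ^ n)⁻¹ = Real.exp (-(Real.log B * n)) := by
      rw [Real.exp_neg, mul_comm, Real.exp_nat_mul, Real.exp_log (by linarith)]
    rw [h4, h5, ← Real.exp_add, Real.exp_lt_exp] at h3
    have h6 : η * k < n := by
      rw [hη, div_mul_eq_mul_div, div_lt_iff₀ (by positivity)]
      nlinarith
    have h7 : (n : ℝ) ≤ s := by exact_mod_cast hmin s hs
    linarith
  have hOP : ∀ s ∈ O, P < s := by
    intro s hs
    have h1 := hOη s hs
    have h2 : (P : ℝ) < s := F3.trans_le h1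
    exact_mod_cast h2
  have hAne : A.Nonempty := by
    by_contra h
    rw [Finset.not_nonempty_iff_eq_empty] at h
    have hd0 : (d : ℝ) = 0 := by
      rw [hkap, h, Finset.sum_empty, zero_add] at hk1
      exact hk1
    have he0 : e = 0 := by
      rw [he, h, Finset.sum_empty, hd0]
      ring
    have ho0 : o = 0 := by
      rw [hk1, he0] at hrel2
      linarith
    have hOne : O.Nonempty := by
      obtain ⟨s, hs⟩ := hSne
      refine ⟨s, Finset.mem_filter.2 ⟨hs, fun hlt => ?_⟩⟩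
      have : s ∈ A := Finset.mem_filter.2 ⟨hs, hlt⟩
      rw [h] at this
      exact absurd this (Finset.notMem_empty s)
    have h1 := hOlow _ (O.min'_mem hOne) (fun t ht => O.min'_le t ht)
    rw [ho0, abs_zero] at h1
    have h2 : (0 : ℝ) < (B ^ (O.min' hOne))⁻¹ := by positivity
    linarith
  have hX : ∃ s ∈ O, s + J2 ≤ k := by
    by_contra hcon
    push Not at hcon
    obtain ⟨s0, hs0⟩ := hAne
    have h1 := hAs s0 hs0
    set c' : ℕ → ℤ := fun q => if k - q ∈ O then c (k - q) else 0 with hc'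
    refine F2 c c' d hcH (fun q => ?_) hd
      ⟨s0, Finset.mem_Ico.2 ⟨(hS s0 h1.1).1, by omega⟩, (hS s0 h1.1).2.2⟩ ?_
    · rw [hc']
      by_cases hq : k - q ∈ O
      · simp only [if_pos hq]
        exact hcH _
      · simp only [if_neg hq, abs_zero]
        exact Int.natCast_nonneg H
    · have e1 : ∑ s ∈ Finset.Ico 2 J2, (c s : ℝ) * dz s (k - s) =
          ∑ s ∈ A, (c s : ℝ) * dz s (k - s) := by
        symm
        apply Finset.sum_subset
        · intro t ht
          have h2 := hAs t ht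
          exact Finset.mem_Ico.2 ⟨(hS t h2.1).1, by omega⟩
        · intro t ht htA
          have h3 : t ∉ S := by
            intro h4
            have h5 : t ∈ O := Finset.mem_filter.2 ⟨h4, fun h6 =>
              htA (Finset.mem_filter.2 ⟨h4, h6⟩)⟩
            have h6 := hcon t h5
            have h7 := (Finset.mem_Ico.1 ht).2
            omega
          rw [hcS t h3]
          simp
      have e2 : ∑ q ∈ Finset.Ico 1 J2, (c' q : ℝ) * dz (k - q) q =
          ∑ s ∈ O, (c s : ℝ) * dz s (k - s) := by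
        have hinj : Set.InjOn (fun s => k - s) (O : Set ℕ) := by
          intro s hs t ht hst
          have h2 := (hS s (hOs s hs).1).2.1
          have h3 := (hS t (hOs t ht).1).2.1
          have h4 : k - s = k - t := hst
          omega
        have h2 : ∑ s ∈ O, (c s : ℝ) * dz s (k - s) =
            ∑ q ∈ O.image (fun s => k - s), (c' q : ℝ) * dz (k - q) q := by
          rw [Finset.sum_image hinj]
          refine Finset.sum_congr rfl fun s hs => ?_
          have h3 := (hS s (hOs s hs).1).2.1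
          have h4 : k - (k - s) = s := by omega
          rw [hc']
          simp only [h4]
          rw [if_pos hs]
        rw [h2]
        symm
        apply Finset.sum_subset
        · intro q hq
          obtain ⟨s, hs, rfl⟩ := Finset.mem_image.1 hq
          have h3 := (hS s (hOs s hs).1).2.1
          have h4 := hcon s hs
          exact Finset.mem_Ico.2 ⟨by omega, by omega⟩
        · intro q hq hqn
          have h3 : k - q ∉ O := by
            intro h4
            apply hqn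
            refine Finset.mem_image.2 ⟨k - q, h4, ?_⟩
            have := (Finset.mem_Ico.1 hq).2
            show k - (k - q) = q
            omega
          rw [hc']
          simp only [if_neg h3]
          simp
      unfold ext
      rw [e1, e2, ← hrel, hsplit]
  have hO2 : 2 ≤ O.card := by
    obtain ⟨s, hs, hsk⟩ := hX
    by_contra hlt
    have h1 : O.card = 1 := by
      have : 0 < O.card := Finset.card_pos.2 ⟨s, hs⟩
      omega
    obtain ⟨t, ht⟩ := Finset.card_eq_one.1 h1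
    have hst : s = t := by
      rw [ht] at hs
      exact Finset.mem_singleton.1 hs
    subst hst
    obtain ⟨h2, h3⟩ := hOs s hs
    have h4 : o = (c s : ℝ) * dz s (k - s) := by
      rw [ho, ht, Finset.sum_singleton]
    have h5 : |o| ≤ D * (1 / 2) ^ k := by
      have h6 : o = -e := by
        rw [hk1] at hrel2
        linarith
      rw [h6, abs_neg]
      exact hle
    have h6 : (1 : ℝ) ≤ |(c s : ℝ)| := by
      have := Int.one_le_abs (hS s h2).2.2
      exact_mod_cast this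
    have h7 : (1 / 2 : ℝ) ^ s ≤ D * (1 / 2) ^ k := by
      have h8 := dz_ge (p := s) (q := k - s) (by omega) (by omega)
      rw [h4, abs_mul] at h5
      calc (1 / 2 : ℝ) ^ s ≤ dz s (k - s) := h8
        _ ≤ |dz s (k - s)| := le_abs_self _
        _ = 1 * |dz s (k - s)| := (one_mul _).symm
        _ ≤ |(c s : ℝ)| * |dz s (k - s)| := mul_le_mul_of_nonneg_right h6 (abs_nonneg _)
        _ ≤ D * (1 / 2) ^ k := h5
    have h8 : (1 / 2 : ℝ) ^ k = (1 / 2) ^ s * (1 / 2) ^ (k - s) := by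
      rw [← pow_add]
      congr 1
      omega
    have h9 : (0 : ℝ) < (1 / 2) ^ s := by positivity
    have h10 : (1 : ℝ) ≤ D * (1 / 2) ^ (k - s) := by
      rw [h8] at h7
      have h11 : (1 / 2 : ℝ) ^ s * 1 ≤ (1 / 2 : ℝ) ^ s * (D * (1 / 2) ^ (k - s)) := by
        linarith
      exact le_of_mul_le_mul_left h11 h9
    have h11 : (1 / 2 : ℝ) ^ (k - s) ≤ (1 / 2) ^ Q0 :=
      pow_le_pow_of_le_one (by norm_num) (by norm_num) (by omega)
    have h12 : D * (1 / 2) ^ (k - s) ≤ D * (1 / 2) ^ Q0 := mul_le_mul_of_nonneg_left h11 hD0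
    have h13 : D * (1 / 2) ^ Q0 < 1 := by
      rw [one_div_pow, mul_one_div, div_lt_one (by positivity)]
      exact hQ0
    linarith
  have hfA : S.filter (· ≤ P) = A := by
    apply Finset.filter_congr
    intro s hs
    constructor
    · intro h2
      by_contra h3
      have := hOP s (Finset.mem_filter.2 ⟨hs, h3⟩)
      omega
    · intro h2
      omega
  refine ⟨?_, ?_, ?_, ?_, ?_, ?_⟩
  · obtain ⟨s, hs⟩ := hAne
    have h1 := hAs s hs
    exact ⟨s, h1.1, by omega⟩
  · intro hd0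
    rw [hfA]
    by_contra hlt
    have h1 : A.card = 1 := by
      have : 0 < A.card := Finset.card_pos.2 hAne
      omega
    obtain ⟨t, ht⟩ := Finset.card_eq_one.1 h1
    have htA : t ∈ A := by
      rw [ht]
      exact Finset.mem_singleton_self t
    have h2 := hAs t htA
    have h3 := hS t h2.1
    rw [hkap, ht, Finset.sum_singleton, hd0, Int.cast_zero, add_zero] at hk1
    rcases mul_eq_zero.1 hk1 with h4 | h4
    · exact h3.2.2 (by exact_mod_cast h4)
    · have := zv_gt h3.1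
      linarith
  · rw [hfA, ← hkap]
    exact hk1
  · intro s hs
    by_cases h : s < J
    · left
      omega
    · right
      exact hOη s (Finset.mem_filter.2 ⟨hs, h⟩)
  · refine hO2.trans (Finset.card_le_card fun s hs => ?_)
    exact Finset.mem_filter.2 ⟨(hOs s hs).1, hOη s hs⟩
  · obtain ⟨s, hs, hsk⟩ := hX
    exact ⟨s, (hOs s hs).1, hOη s hs, by omega⟩

/-- **the positions of the terms of a sparse relation** -/
theorem gap (N H Q : ℕ) : ∃ (P k0 : ℕ) (η : ℝ), 0 < η ∧ ∀ k : ℕ, k0 ≤ k →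
    ∀ (S : Finset ℕ) (c : ℕ → ℤ) (d : ℤ), S.Nonempty → S.card ≤ N →
    (∀ s ∈ S, 2 ≤ s ∧ s < k ∧ c s ≠ 0 ∧ |c s| ≤ H) → |d| ≤ H →
    ∑ s ∈ S, (c s : ℝ) * dz s (k - s) + d * zv k = 0 → Concl P Q η k S c d := by
  classical
  obtain ⟨P, k0, η, hη, h⟩ := gap_core N H Q
  refine ⟨P, k0, η, hη, fun k hk S c d hne hSN hS hd hrel => ?_⟩
  have h1 := h k hk S (fun s => if s ∈ S then c s else 0) d hne hSN (fun s hs => by
    have := hS s hs
    rw [if_pos hs]
    exact ⟨this.1, this.2.1, this.2.2.1⟩) (fun s hs => if_neg hs) (fun s => by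
    by_cases hs : s ∈ S
    · simp only [if_pos hs]
      exact (hS s hs).2.2.2
    · simp only [if_neg hs, abs_zero]
      exact Int.natCast_nonneg H) hd (by
    rw [← hrel]
    congr 1
    exact Finset.sum_congr rfl fun s hs => by rw [if_pos hs])
  obtain ⟨h2, h3, h4, h5⟩ := h1
  refine ⟨h2, h3, ?_, h5⟩
  rw [← h4]
  congr 1
  refine Finset.sum_congr rfl fun s hs => ?_
  have h6 := (Finset.mem_filter.1 hs).1
  simp only [if_pos h6]

end Pool.Agent.Run7.h728.DZ
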