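import Mathlib

/-!
# Independence of Dirichlet series over slowly varying functions
-/

set_option autoImplicit false

namespace Pool.Agent.Run7.h728.DZ

open Finset Filter Topology

/-- `V` is a real vector space of functions, the nonzero ones are neither exponentially large nor
exponentially small -/
def Slow (V : Submodule ℝ (ℕ → ℝ)) : Prop :=
  ∀ g ∈ V, g ≠ 0 → ∀ ρ : ℝ, 0 < ρ → ρ < 1 → ∀ᶠ x in atTop, ρ ^ x ≤ |g x| ∧ |g x| ≤ (ρ⁻¹) ^ x

theorem indep {ι : Type} [Fintype ι] (C : ι → ℕ → ℝ) (F : ι → ℕ → ℝ) (x0 : ℕ)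
    (hF : ∀ i x, x0 ≤ x → HasSum (fun μ : ℕ => C i μ / (μ : ℝ) ^ x) (F i x))
    (hC0 : ∀ i, C i 0 = 0) (hCn : ∀ i μ, 0 ≤ C i μ) (hli : LinearIndependent ℝ C)
    {V : Submodule ℝ (ℕ → ℝ)} (hV : Slow V)
    (c : ι → ℕ → ℝ) (hc : ∀ i, c i ∈ V) (hne : ∃ i, c i ≠ 0) :
    ∀ᶠ x in atTop, ∑ i, c i x * F i x ≠ 0 := by
  classical
  set B : ℕ → ℕ → ℝ := fun μ => ∑ i, C i μ • c i with hB
  have hBV : ∀ μ, B μ ∈ V := fun μ => V.sum_mem fun i _ => V.smul_mem _ (hc i)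
  have hBx : ∀ μ x, B μ x = ∑ i, C i μ * c i x := fun μ x => by
    rw [hB]
    simp [Finset.sum_apply]
  have hex : ∃ μ, B μ ≠ 0 := by
    by_contra hcon
    push Not at hcon
    obtain ⟨i0, hi0⟩ := hne
    apply hi0
    funext x
    have h1 : ∑ i, c i x • C i = 0 := by
      funext μ
      have h2 := congrFun (hcon μ) x
      rw [hBx] at h2
      rw [Finset.sum_apply]
      simp only [Pi.smul_apply, smul_eq_mul, Pi.zero_apply] at h2 ⊢
      rw [← h2]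
      exact Finset.sum_congr rfl fun i _ => mul_comm _ _
    exact Fintype.linearIndependent_iff.1 hli (fun i => c i x) h1 i0
  set μ0 := Nat.find hex with hμ0
  have hμ0ne : B μ0 ≠ 0 := Nat.find_spec hex
  have hlt : ∀ μ, μ < μ0 → B μ = 0 := fun μ h => by
    by_contra h1
    exact Nat.find_min hex h h1
  have hμpos : 1 ≤ μ0 := by
    by_contra h
    have h0 : μ0 = 0 := by omega
    apply hμ0ne
    rw [h0]
    funext x
    rw [hBx]
    simp [hC0]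
  set t : ℝ := (μ0 : ℝ) / (μ0 + 1) with ht
  have hμR : (1 : ℝ) ≤ μ0 := by exact_mod_cast hμpos
  have ht0 : 0 < t := by positivity
  have ht1 : t < 1 := by
    rw [ht, div_lt_one (by positivity)]
    linarith
  set ρ : ℝ := √(√t) with hρ
  have hρ0 : 0 < ρ := Real.sqrt_pos.2 (Real.sqrt_pos.2 ht0)
  have hs1 : √t < 1 := by
    rw [Real.sqrt_lt' one_pos]
    simpa using ht1
  have hρ1 : ρ < 1 := by
    rw [hρ, Real.sqrt_lt' one_pos]
    simpa using hs1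
  have hρ4 : ρ ^ 4 = t := by
    have h1 : ρ ^ 2 = √t := Real.sq_sqrt (Real.sqrt_nonneg _)
    have h2 : (√t) ^ 2 = t := Real.sq_sqrt ht0.le
    calc ρ ^ 4 = (ρ ^ 2) ^ 2 := by ring
      _ = t := by rw [h1, h2]
  set K : ℝ := ∑ i, F i x0 with hK
  have hFn : ∀ i, 0 ≤ F i x0 := fun i =>
    (hF i x0 le_rfl).nonneg fun μ => div_nonneg (hCn i μ) (by positivity)
  have hK0 : 0 ≤ K := Finset.sum_nonneg fun i _ => hFn i
  have hCK : ∀ i μ, C i μ ≤ K * (μ : ℝ) ^ x0 := by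
    intro i μ
    rcases Nat.eq_zero_or_pos μ with h | h
    · subst h
      rw [hC0]
      positivity
    · have hμ : (0 : ℝ) < μ := by exact_mod_cast h
      have h1 : C i μ / (μ : ℝ) ^ x0 ≤ F i x0 :=
        le_hasSum (hF i x0 le_rfl) μ fun μ' _ => div_nonneg (hCn i μ') (by positivity)
      have h2 : F i x0 ≤ K := Finset.single_le_sum (fun j _ => hFn j) (Finset.mem_univ i)
      rw [div_le_iff₀ (by positivity)] at h1
      exact h1.trans (mul_le_mul_of_nonneg_right h2 (by positivity))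
  set Z : ℝ := ∑' μ : ℕ, 1 / (μ : ℝ) ^ 2 with hZ
  have hZs : HasSum (fun μ : ℕ => 1 / (μ : ℝ) ^ 2) Z :=
    (Real.summable_one_div_nat_pow.2 (by norm_num)).hasSum
  have hZ0 : 0 ≤ Z := hZs.nonneg fun _ => by positivity
  have hev : ∀ᶠ x in atTop, ∀ i, |c i x| ≤ (ρ⁻¹) ^ x := by
    rw [eventually_all]
    intro i
    by_cases h : c i = 0
    · refine Eventually.of_forall fun x => ?_
      rw [h]
      simp only [Pi.zero_apply, abs_zero]
      positivity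
    · exact (hV (c i) (hc i) h ρ hρ0 hρ1).mono fun x hx => hx.2
  have hlead := (hV (B μ0) (hBV μ0) hμ0ne ρ hρ0 hρ1)
  set N : ℝ := (Fintype.card ι : ℝ) with hN
  set K2 : ℝ := K * N * ((μ0 : ℝ) + 1) ^ (x0 + 2) * Z with hK2
  have hK20 : 0 ≤ K2 := by positivity
  have hsmall : ∀ᶠ x : ℕ in atTop, K2 * (ρ ^ 2) ^ x < 1 := by
    have h1 : Tendsto (fun x : ℕ => K2 * (ρ ^ 2) ^ x) atTop (𝓝 (K2 * 0)) :=
      (tendsto_pow_atTop_nhds_zero_of_lt_one (by positivity) (by nlinarith)).const_mul K2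
    rw [mul_zero] at h1
    exact h1.eventually_lt_const one_pos
  filter_upwards [hev, hlead, hsmall, eventually_ge_atTop (x0 + 2)] with x h1 h2 h3 hx hzero
  have hsum : HasSum (fun μ : ℕ => B μ x / (μ : ℝ) ^ x) 0 := by
    have h4 : HasSum (fun μ : ℕ => ∑ i, c i x * (C i μ / (μ : ℝ) ^ x)) (∑ i, c i x * F i x) :=
      hasSum_sum fun i _ => (hF i x (by omega)).mul_left (c i x)
    rw [hzero] at h4
    refine h4.congr_fun ?_
    intro μ
    rw [hBx, Finset.sum_div]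
    exact Finset.sum_congr rfl fun i _ => by ring
  set M : ℝ := ∑ i, |c i x| with hM
  have hMle : M ≤ N * (ρ⁻¹) ^ x := by
    rw [hM, hN]
    calc ∑ i, |c i x| ≤ ∑ _i : ι, (ρ⁻¹) ^ x := Finset.sum_le_sum fun i _ => h1 i
      _ = Fintype.card ι * (ρ⁻¹) ^ x := by
        rw [Finset.sum_const, nsmul_eq_mul, Finset.card_univ]
  have hM0 : 0 ≤ M := Finset.sum_nonneg fun i _ => abs_nonneg _
  have hBb : ∀ μ, |B μ x| ≤ K * (μ : ℝ) ^ x0 * M := by
    intro μ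
    rw [hBx]
    refine (Finset.abs_sum_le_sum_abs _ _).trans ?_
    rw [hM, Finset.mul_sum]
    refine Finset.sum_le_sum fun i _ => ?_
    rw [abs_mul, abs_of_nonneg (hCn i μ)]
    exact mul_le_mul_of_nonneg_right (hCK i μ) (abs_nonneg _)
  obtain ⟨y, rfl⟩ : ∃ y, x = x0 + 2 + y := ⟨x - (x0 + 2), by omega⟩
  set X := x0 + 2 + y with hX
  set D : ℝ := K * M * (1 / ((μ0 : ℝ) + 1) ^ y) with hD
  have hD0 : 0 ≤ D := by positivity
  have hsub := hsum.sub (hasSum_ite_eq μ0 (B μ0 X / (μ0 : ℝ) ^ X))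
  have hbd : ‖(0 : ℝ) - B μ0 X / (μ0 : ℝ) ^ X‖ ≤ D * Z := by
    refine hsub.norm_le_of_bounded (hZs.mul_left D) fun μ => ?_
    rcases lt_trichotomy μ μ0 with h | h | h
    · rw [hlt μ h, if_neg h.ne]
      simp only [Pi.zero_apply, zero_div, sub_zero, norm_zero]
      positivity
    · rw [if_pos h, h, sub_self, norm_zero]
      positivity
    · rw [if_neg h.ne', sub_zero, Real.norm_eq_abs, abs_div,
        abs_of_nonneg (by positivity : (0 : ℝ) ≤ (μ : ℝ) ^ X)]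
      have hμ : ((μ0 : ℝ) + 1) ≤ μ := by exact_mod_cast h
      have hμ1 : (0 : ℝ) < μ := by linarith
      rw [div_le_iff₀ (by positivity)]
      refine (hBb μ).trans ?_
      have h5 : D * (1 / (μ : ℝ) ^ 2) * (μ : ℝ) ^ X =
          K * M * (1 / ((μ0 : ℝ) + 1) ^ y) * ((μ : ℝ) ^ x0 * (μ : ℝ) ^ y) := by
        rw [hD, hX, pow_add, pow_add]
        field_simp
      rw [h5]
      have h6 : (1 : ℝ) ≤ 1 / ((μ0 : ℝ) + 1) ^ y * (μ : ℝ) ^ y := by
        rw [one_div, inv_mul_eq_div, le_div_iff₀ (by positivity), one_mul]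
        exact pow_le_pow_left₀ (by positivity) hμ y
      calc K * (μ : ℝ) ^ x0 * M = K * M * (μ : ℝ) ^ x0 * 1 := by ring
        _ ≤ K * M * (μ : ℝ) ^ x0 * (1 / ((μ0 : ℝ) + 1) ^ y * (μ : ℝ) ^ y) :=
          mul_le_mul_of_nonneg_left h6 (by positivity)
        _ = _ := by ring
  rw [zero_sub, norm_neg, Real.norm_eq_abs, abs_div,
    abs_of_nonneg (by positivity : (0 : ℝ) ≤ (μ0 : ℝ) ^ X), div_le_iff₀ (by positivity)] at hbd
  have h7 : ρ ^ X ≤ D * Z * (μ0 : ℝ) ^ X := h2.1.trans hbd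
  have h8 : D * Z * (μ0 : ℝ) ^ X ≤ K2 * ((ρ⁻¹) ^ X * (ρ ^ 4) ^ X) := by
    have h9 : D ≤ K * (N * (ρ⁻¹) ^ X) * (1 / ((μ0 : ℝ) + 1) ^ y) := by
      rw [hD]
      exact mul_le_mul_of_nonneg_right (mul_le_mul_of_nonneg_left hMle hK0) (by positivity)
    have h10 : (ρ ^ 4) ^ X = (μ0 : ℝ) ^ X / ((μ0 : ℝ) + 1) ^ X := by
      rw [hρ4, ht, div_pow]
    calc D * Z * (μ0 : ℝ) ^ X
        ≤ K * (N * (ρ⁻¹) ^ X) * (1 / ((μ0 : ℝ) + 1) ^ y) * Z * (μ0 : ℝ) ^ X := by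
          gcongr
      _ = K2 * ((ρ⁻¹) ^ X * (ρ ^ 4) ^ X) := by
        rw [hK2, h10]
        have h11 : ((μ0 : ℝ) + 1) ^ X = ((μ0 : ℝ) + 1) ^ (x0 + 2) * ((μ0 : ℝ) + 1) ^ y := by
          rw [hX, pow_add]
        rw [h11]
        field_simp
  have h12 : (ρ⁻¹) ^ X * (ρ ^ 4) ^ X = ρ ^ X * (ρ ^ 2) ^ X := by
    rw [← mul_pow, ← mul_pow]
    congr 1
    field_simp
  rw [h12] at h8
  have h13 : ρ ^ X ≤ ρ ^ X * (K2 * (ρ ^ 2) ^ X) := by
    calc ρ ^ X ≤ D * Z * (μ0 : ℝ) ^ X := h7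
      _ ≤ _ := h8
      _ = _ := by ring
  have h14 : (0 : ℝ) < ρ ^ X := by positivity
  nlinarith

end Pool.Agent.Run7.h728.DZ
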