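import Pool.Agent.Run7.h728.DZ.Gap

/-!
# Relations between the numbers `ζ(s) - 1` with odd `s` and small coefficients
-/

set_option autoImplicit false

namespace Pool.Agent.Run7.h728.DZ

open Finset Filter Topology

lemma zv_ratio {s : ℕ} (hs : 2 ≤ s) (j : ℕ) : zv (s + j) - 1 ≤ (1 / 2) ^ j * (zv s - 1) := by
  have h1 := (zv_one hs).mul_left ((1 / 2 : ℝ) ^ j)
  refine hasSum_le (fun m => ?_) (zv_one (w := s + j) (by omega)) h1
  have hM : (2 : ℝ) ≤ ((m + 1 + 1 : ℕ) : ℝ) := by exact_mod_cast (by omega : 2 ≤ m + 1 + 1)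
  set M : ℝ := ((m + 1 + 1 : ℕ) : ℝ) with hMdef
  have h3 : (2 : ℝ) ^ j * M ^ s ≤ M ^ (s + j) := by
    rw [pow_add, mul_comm (M ^ s)]
    exact mul_le_mul_of_nonneg_right (pow_le_pow_left₀ (by norm_num) hM _) (by positivity)
  rw [one_div_pow, one_div_mul_one_div]
  exact one_div_le_one_div_of_le (by positivity) h3

/-- a finite part of the geometric series with ratio `1 / 4` -/
lemma geom_quarter (T : Finset ℕ) (hT : ∀ j ∈ T, 1 ≤ j) : ∑ j ∈ T, (1 / 4 : ℝ) ^ j < 1 / 3 := by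
  obtain ⟨n, hn⟩ : ∃ n : ℕ, ∀ j ∈ T, j < n + 1 := by
    refine ⟨∑ j ∈ T, j, fun j hj => ?_⟩
    have := Finset.single_le_sum (f := fun j : ℕ => j) (fun i _ => Nat.zero_le _) hj
    omega
  have h1 : ∑ j ∈ T, (1 / 4 : ℝ) ^ j ≤ ∑ j ∈ Finset.Ico 1 (n + 1), (1 / 4 : ℝ) ^ j :=
    Finset.sum_le_sum_of_subset_of_nonneg
      (fun j hj => Finset.mem_Ico.2 ⟨hT j hj, hn j hj⟩) (fun _ _ _ => by positivity)
  have h2 : ∀ n : ℕ, ∑ j ∈ Finset.Ico 1 (n + 1), (1 / 4 : ℝ) ^ j = (1 - (1 / 4) ^ n) / 3 := by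
    intro n
    induction n with
    | zero => simp
    | succ n ih =>
      rw [Finset.sum_Ico_succ_top (by omega), ih, pow_succ]
      ring
  rw [h2] at h1
  have h3 : (0 : ℝ) < (1 / 4) ^ n := by positivity
  linarith

/-- a relation between the numbers `ζ(s) - 1`, `s` odd, has a coefficient which is more than three
times the first one -/
lemma big_coef (A : Finset ℕ) (c : ℕ → ℤ) (hA : ∀ s ∈ A, Odd s ∧ 2 ≤ s) (s1 : ℕ) (h1 : s1 ∈ A)
    (hmin : ∀ s ∈ A, s1 ≤ s) (hc : c s1 ≠ 0) (h0 : ∑ s ∈ A, (c s : ℝ) * (zv s - 1) = 0) :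
    ∃ s ∈ A, 3 * |c s1| < |c s| := by
  by_contra hcon
  push Not at hcon
  have hs1 := hA s1 h1
  have hz : 0 < zv s1 - 1 := by
    have := zv_gt hs1.2
    linarith
  have hc1 : (0 : ℝ) < |(c s1 : ℝ)| := abs_pos.2 (by exact_mod_cast hc)
  rw [← Finset.add_sum_erase A _ h1] at h0
  have h2 : |(c s1 : ℝ)| * (zv s1 - 1) ≤
      ∑ s ∈ A.erase s1, 3 * |(c s1 : ℝ)| * ((1 / 4) ^ ((s - s1) / 2) * (zv s1 - 1)) := by
    have h3 : (c s1 : ℝ) * (zv s1 - 1) = -∑ s ∈ A.erase s1, (c s : ℝ) * (zv s - 1) := by linarith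
    calc |(c s1 : ℝ)| * (zv s1 - 1) = |(c s1 : ℝ) * (zv s1 - 1)| := by
          rw [abs_mul, abs_of_pos hz]
      _ = |∑ s ∈ A.erase s1, (c s : ℝ) * (zv s - 1)| := by rw [h3, abs_neg]
      _ ≤ ∑ s ∈ A.erase s1, |(c s : ℝ) * (zv s - 1)| := Finset.abs_sum_le_sum_abs _ _
      _ ≤ _ := by
        refine Finset.sum_le_sum fun s hs => ?_
        have hsA := Finset.mem_of_mem_erase hs
        have hne := Finset.ne_of_mem_erase hs
        have h4 := hmin s hsA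
        have h5 := hA s hsA
        obtain ⟨a, ha⟩ := hs1.1
        obtain ⟨b, hb⟩ := h5.1
        have h6 : s = s1 + 2 * ((s - s1) / 2) := by omega
        have h7 : zv s - 1 ≤ (1 / 4) ^ ((s - s1) / 2) * (zv s1 - 1) := by
          have h8 := zv_ratio hs1.2 (2 * ((s - s1) / 2))
          rw [← h6, pow_mul] at h8
          norm_num at h8 ⊢
          exact h8
        have h9 : 0 ≤ zv s - 1 := by
          have := zv_gt h5.2
          linarith
        have h10 : |(c s : ℝ)| ≤ 3 * |(c s1 : ℝ)| := by exact_mod_cast hcon s hsA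
        rw [abs_mul, abs_of_nonneg h9]
        exact mul_le_mul h10 h7 h9 (by positivity)
  rw [← Finset.mul_sum, ← Finset.sum_mul] at h2
  have h3 : ∑ s ∈ A.erase s1, (1 / 4 : ℝ) ^ ((s - s1) / 2) < 1 / 3 := by
    have hinj : Set.InjOn (fun s => (s - s1) / 2) (A.erase s1 : Set ℕ) := by
      intro s hs t ht hst
      have hs' := Finset.mem_of_mem_erase (Finset.mem_coe.1 hs)
      have ht' := Finset.mem_of_mem_erase (Finset.mem_coe.1 ht)
      have h4 := hmin s hs'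
      have h5 := hmin t ht'
      obtain ⟨a, ha⟩ := hs1.1
      obtain ⟨b, hb⟩ := (hA s hs').1
      obtain ⟨b', hb'⟩ := (hA t ht').1
      have h6 : (s - s1) / 2 = (t - s1) / 2 := hst
      omega
    have h4 := geom_quarter ((A.erase s1).image fun s => (s - s1) / 2) (by
      intro j hj
      obtain ⟨s, hs, rfl⟩ := Finset.mem_image.1 hj
      have hsA := Finset.mem_of_mem_erase hs
      have hne := Finset.ne_of_mem_erase hs
      have h4 := hmin s hsA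
      obtain ⟨a, ha⟩ := hs1.1
      obtain ⟨b, hb⟩ := (hA s hsA).1
      omega)
    rwa [Finset.sum_image hinj] at h4
  have h4 : 3 * |(c s1 : ℝ)| *
      ((∑ s ∈ A.erase s1, (1 / 4 : ℝ) ^ ((s - s1) / 2)) * (zv s1 - 1)) <
      3 * |(c s1 : ℝ)| * (1 / 3 * (zv s1 - 1)) :=
    mul_lt_mul_of_pos_left (mul_lt_mul_of_pos_right h3 hz) (by positivity)
  have h5 : 3 * |(c s1 : ℝ)| * (1 / 3 * (zv s1 - 1)) = |(c s1 : ℝ)| * (zv s1 - 1) := by ring
  linarith

/-- in large weights the first coefficient of a sparse relation is small -/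
theorem sparse_first (N H : ℕ) : ∃ k0 : ℕ, ∀ k : ℕ, k0 ≤ k → ∀ (S : Finset ℕ) (c : ℕ → ℤ),
    S.card ≤ N → (∀ s ∈ S, Odd s ∧ 3 ≤ s ∧ s < k ∧ c s ≠ 0 ∧ |c s| ≤ H) →
    ∑ s ∈ S, (c s : ℝ) * dz s (k - s) = 0 →
    ∀ s1 ∈ S, (∀ s ∈ S, s1 ≤ s) → ∃ s ∈ S, 3 * |c s1| < |c s| := by
  obtain ⟨P, k0, η, hη, h⟩ := gap N H 0
  refine ⟨k0, fun k hk S c hSN hS hrel s1 hs1 hmin => ?_⟩
  obtain ⟨⟨s0, hs0, hs0P⟩, -, h3, -⟩ := h k hk S c 0 ⟨s1, hs1⟩ hSN (fun s hs => by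
    have := hS s hs
    exact ⟨by omega, this.2.2⟩) (by simp) (by
    rw [Int.cast_zero, zero_mul, add_zero]
    exact hrel)
  rw [Int.cast_zero, add_zero] at h3
  have h4 : s1 ∈ S.filter (· ≤ P) := by
    have := hmin s0 hs0
    exact Finset.mem_filter.2 ⟨hs1, by omega⟩
  obtain ⟨s, hs, h5⟩ := big_coef (S.filter (· ≤ P)) c (fun s hs => by
    have := hS s (Finset.mem_filter.1 hs).1
    exact ⟨this.1, by omega⟩) s1 h4 (fun s hs => hmin s (Finset.mem_filter.1 hs).1)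
    (hS s1 hs1).2.2.2.1 h3
  exact ⟨s, (Finset.mem_filter.1 hs).1, h5⟩

end Pool.Agent.Run7.h728.DZ
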