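import Pool.Agent.Run7.h728.DZ.Coef

/-!
# The middle slopes
-/

set_option autoImplicit false

namespace Pool.Agent.Run7.h728.DZ

open Finset Filter Topology

/-- the coefficients of the families with slopes strictly between the ends vanish -/
lemma middle_zero {ι : Type} [Fintype ι] (W : ℕ) (w0 : ℤ) (r : ι → ℕ) (a : ι → ℤ)
    (hinj : Function.Injective fun i => (r i, a i)) (γ : ι → ℝ) (γe : ℝ)
    (h : ∀ μ : ℕ, ∑ i, γ i * CC W (r i) (a i) (w0 - a i) μ + γe * CE W w0 μ = 0) :
    ∀ ρ, 0 < ρ → ρ < W → ∀ i, r i = ρ → γ i = 0 := by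
  classical
  intro ρ
  induction ρ using Nat.strong_induction_on with
  | _ ρ ih =>
    intro h0 hW
    have key : ∀ i ∈ Finset.univ.filter (fun i => r i = ρ), γ i = 0 := by
      refine laurent _ a ?_ γ ?_
      · intro i hi j hj hij
        simp only [Finset.coe_filter, Finset.mem_univ, true_and, Set.mem_ofPred_eq] at hi hj
        exact hinj (Prod.ext (hi.trans hj.symm) hij)
      · intro P hP
        have h1 := h (P ^ ρ)
        rw [CE_prime hP h0 hW, mul_zero, add_zero] at h1
        rw [Finset.sum_filter]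
        refine Eq.trans (Finset.sum_congr rfl fun i _ => ?_) h1
        split_ifs with hi
        · rw [hi, CC_prime_eq hP h0 hW]
        · rcases Nat.eq_zero_or_pos (r i) with h2 | h2
          · rw [CC_prime_zero hP h0 hW (Or.inl h2), mul_zero]
          · rcases lt_or_gt_of_ne hi with h3 | h3
            · rw [ih (r i) h3 h2 (h3.trans hW) i rfl, zero_mul]
            · rw [CC_prime_zero hP h0 hW (Or.inr h3), mul_zero]
    intro i hi
    exact key i (by simpa using hi)

/-- distinct families have linearly independent Dirichlet coefficients, the part at the ends -/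
lemma ends_eq {ι : Type} [Fintype ι] (W : ℕ) (hW : 1 ≤ W) (w0 : ℤ) (r : ι → ℕ) (a : ι → ℤ)
    (hr : ∀ i, r i ≤ W) (h0 : ∀ i, r i = 0 → 2 ≤ a i) (h1 : ∀ i, r i = W → a i < w0)
    (γ : ι → ℝ) (γe : ℝ)
    (h : ∀ μ : ℕ, ∑ i, γ i * CC W (r i) (a i) (w0 - a i) μ + γe * CE W w0 μ = 0)
    (hmid : ∀ i, 0 < r i → r i < W → γ i = 0) (M : ℕ) (hM : 1 ≤ M) :
    ∑ i ∈ Finset.univ.filter (fun i => r i = W),
        γ i * ((M : ℝ) ^ (-a i) * ∑ n ∈ Finset.Ico 1 M, 1 / (n : ℝ) ^ (w0 - a i).toNat) +
      ∑ i ∈ Finset.univ.filter (fun i => r i = 0),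
        γ i * ((M : ℝ) ^ (-(w0 - a i)) * (zv (a i).toNat -
          ∑ n ∈ Finset.Ico 1 M, 1 / (n : ℝ) ^ (a i).toNat - 1 / (M : ℝ) ^ (a i).toNat)) +
      γe * (M : ℝ) ^ (-w0) = 0 := by
  classical
  have h2 := h (M ^ W)
  rw [CE_top hW hM] at h2
  refine Eq.trans ?_ h2
  congr 1
  rw [Finset.sum_filter, Finset.sum_filter, ← Finset.sum_add_distrib]
  refine Finset.sum_congr rfl fun i _ => ?_
  rcases Nat.eq_zero_or_pos (r i) with h3 | h3
  · rw [if_neg (by omega), if_pos h3, zero_add, h3]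
    have h4 := h0 i h3
    have h5 : ((a i).toNat : ℤ) = a i := Int.toNat_of_nonneg (by omega)
    have h6 := CC_bot hW hM (a := (a i).toNat) (by omega) (w0 - a i)
    rw [h5] at h6
    rw [h6]
  · rcases lt_or_eq_of_le (hr i) with h4 | h4
    · rw [if_neg (by omega), if_neg (by omega), hmid i h3 h4]
      ring
    · rw [if_pos h4, if_neg (by omega), add_zero, h4]
      have h5 := h1 i h4
      have h6 : ((w0 - a i).toNat : ℤ) = w0 - a i := Int.toNat_of_nonneg (by omega)
      have h7 := CC_top hW hM (a i) (w0 - a i).toNat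
      rw [h6] at h7
      rw [h7]

end Pool.Agent.Run7.h728.DZ
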